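import Pool.Agent.Helper67.DO.DefsE

/-!
# Toolkit: holomorphic functions of several variables (partial derivatives, smoothness,
integrals with parameters)
-/

namespace Pool.Agent.Helper67.DO

open scoped BigOperators Real Topology
open MeasureTheory Set Metric

noncomputable section

theorem scv_cont_int {E : Type*} [NormedAddCommGroup E] [ProperSpace E]
    {G : Type*} [NormedAddCommGroup G] [NormedSpace ℝ G]
    (U : Set E) (hU : IsOpen U) (a b : ℝ) (hab : a ≤ b) (H : E → ℝ → G)
    (hH : ContinuousOn (Function.uncurry H) (U ×ˢ Icc a b)) :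
    ContinuousOn (fun x => ∫ t in a..b, H x t) U := by
  intro x0 hx0
  obtain ⟨ε, hε, hball⟩ := Metric.nhds_basis_closedBall.mem_iff.1 (hU.mem_nhds hx0)
  have hK : IsCompact (closedBall x0 ε ×ˢ Icc a b) := (isCompact_closedBall x0 ε).prod isCompact_Icc
  obtain ⟨M, hM⟩ := hK.exists_bound_of_continuousOn (hH.mono (prod_mono hball le_rfl))
  have hsub : Set.uIoc a b ⊆ Icc a b := by rw [uIoc_of_le hab]; exact Ioc_subset_Icc_self
  refine ContinuousAt.continuousWithinAt ?_
  refine intervalIntegral.continuousAt_of_dominated_interval (bound := fun _ => M) ?_ ?_ ?_ ?_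
  · filter_upwards [closedBall_mem_nhds x0 hε] with x hx
    refine ContinuousOn.aestronglyMeasurable ?_ measurableSet_uIoc
    exact hH.comp (f := fun t => (x, t)) (by fun_prop) (fun t ht => ⟨hball hx, hsub ht⟩)
  · filter_upwards [closedBall_mem_nhds x0 hε] with x hx
    exact Filter.Eventually.of_forall fun t ht => hM (x, t) ⟨hx, hsub ht⟩
  · exact intervalIntegrable_const
  · refine Filter.Eventually.of_forall fun t ht => ?_
    have h1 : ContinuousOn (fun x => H x t) U :=
      hH.comp (f := fun x => (x, t)) (by fun_prop) (fun x hx => ⟨hx, hsub ht⟩)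
    exact h1.continuousAt (hU.mem_nhds hx0)

theorem scv_fderiv_int {E : Type*} [NormedAddCommGroup E] [NormedSpace ℂ E] [ProperSpace E]
    (U : Set E) (hU : IsOpen U) (a b : ℝ) (hab : a ≤ b) (H : E → ℝ → ℂ) (H' : E → ℝ → E →L[ℂ] ℂ)
    (hH : ContinuousOn (Function.uncurry H) (U ×ˢ Icc a b))
    (hH' : ContinuousOn (Function.uncurry H') (U ×ˢ Icc a b))
    (hd : ∀ x ∈ U, ∀ t ∈ Icc a b, HasFDerivAt (fun x => H x t) (H' x t) x) :
    ∀ x ∈ U, HasFDerivAt (fun x => ∫ t in a..b, H x t) (∫ t in a..b, H' x t) x := by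
  intro x0 hx0
  obtain ⟨ε, hε, hball⟩ := Metric.nhds_basis_closedBall.mem_iff.1 (hU.mem_nhds hx0)
  have hK : IsCompact (closedBall x0 ε ×ˢ Icc a b) := (isCompact_closedBall x0 ε).prod isCompact_Icc
  obtain ⟨M, hM⟩ := hK.exists_bound_of_continuousOn (hH'.mono (prod_mono hball le_rfl))
  have hsub : Set.uIoc a b ⊆ Icc a b := by rw [uIoc_of_le hab]; exact Ioc_subset_Icc_self
  refine intervalIntegral.hasFDerivAt_integral_of_dominated_of_fderiv_le (bound := fun _ => M)
    (s := closedBall x0 ε) (closedBall_mem_nhds x0 hε) ?_ ?_ ?_ ?_ ?_ ?_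
  · filter_upwards [closedBall_mem_nhds x0 hε] with x hx
    refine ContinuousOn.aestronglyMeasurable ?_ measurableSet_uIoc
    exact hH.comp (f := fun t => (x, t)) (by fun_prop) (fun t ht => ⟨hball hx, hsub ht⟩)
  · refine ContinuousOn.intervalIntegrable ?_
    rw [uIcc_of_le hab]
    exact hH.comp (f := fun t => (x0, t)) (by fun_prop) (fun t ht => ⟨hx0, ht⟩)
  · refine ContinuousOn.aestronglyMeasurable ?_ measurableSet_uIoc
    exact hH'.comp (f := fun t => (x0, t)) (by fun_prop) (fun t ht => ⟨hx0, hsub ht⟩)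
  · exact Filter.Eventually.of_forall fun t ht x hx => hM (x, t) ⟨hx, hsub ht⟩
  · exact intervalIntegrable_const
  · exact Filter.Eventually.of_forall fun t ht x hx => hd x (hball hx) t (hsub ht)

/-- Cauchy formula for the directional derivative -/
theorem scv_cauchy {E : Type*} [NormedAddCommGroup E] [NormedSpace ℂ E]
    (U : Set E) (F : E → ℂ) (hU : IsOpen U) (hF : DifferentiableOn ℂ F U) (z v : E) (r : ℝ) (hr : 0 < r)
    (hz : ∀ w : ℂ, ‖w‖ ≤ r → z + w • v ∈ U) :
    fderiv ℂ F z v = (1 / (2 * π * r) : ℂ) * ∫ θ in (0 : ℝ)..(2 * π),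
      Complex.exp (-(θ * Complex.I)) * F (z + circleMap 0 r θ • v) := by
  set g : ℂ → ℂ := fun w => F (z + w • v) with hg
  have hgd : ∀ w : ℂ, ‖w‖ ≤ r → HasDerivAt g (fderiv ℂ F (z + w • v) v) w := by
    intro w hw
    have h1 : HasFDerivAt F (fderiv ℂ F (z + w • v)) (z + w • v) :=
      ((hF _ (hz w hw)).differentiableAt (hU.mem_nhds (hz w hw))).hasFDerivAt
    have h2 : HasDerivAt (fun w : ℂ => z + w • v) v w := by
      simpa using ((hasDerivAt_id w).smul_const v).const_add z
    exact h1.comp_hasDerivAt w h2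
  have hgc : DifferentiableOn ℂ g (closedBall 0 r) := by
    intro w hw
    exact (hgd w (by simpa using hw)).differentiableAt.differentiableWithinAt
  have h3 := DifferentiableOn.deriv_eq_smul_circleIntegral hr hgc
  have h4 : deriv g 0 = fderiv ℂ F z v := by
    have := (hgd 0 (by simpa using hr.le)).deriv
    simpa using this
  rw [h4] at h3
  have hpi : (2 * π * Complex.I : ℂ) ≠ 0 := Complex.two_pi_I_ne_zero
  have h5 : fderiv ℂ F z v = (2 * π * Complex.I : ℂ)⁻¹ * ∮ z in C(0, r), (1 / (z - 0) ^ 2) • g z := by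
    rw [h3, smul_eq_mul, ← mul_assoc, inv_mul_cancel₀ hpi, one_mul]
  rw [h5, circleIntegral, ← intervalIntegral.integral_const_mul, ← intervalIntegral.integral_const_mul]
  refine intervalIntegral.integral_congr fun θ _ => ?_
  have hr' : (r : ℂ) ≠ 0 := by exact_mod_cast hr.ne'
  have hπ : (π : ℂ) ≠ 0 := by exact_mod_cast Real.pi_ne_zero
  simp only [deriv_circleMap, smul_eq_mul, sub_zero, hg]
  have h6 : circleMap 0 r θ = r * Complex.exp (θ * Complex.I) := by simp [circleMap]
  have h7 : Complex.exp (θ * Complex.I) ≠ 0 := Complex.exp_ne_zero _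
  rw [h6, Complex.exp_neg]
  field_simp

theorem scv_fderiv_apply_cont {E : Type*} [NormedAddCommGroup E] [NormedSpace ℂ E] [ProperSpace E]
    (U : Set E) (F : E → ℂ) (hU : IsOpen U) (hF : DifferentiableOn ℂ F U) (v : E) :
    ContinuousOn (fun z => fderiv ℂ F z v) U := by
  intro z0 hz0
  obtain ⟨ε, hε, hball⟩ := Metric.nhds_basis_ball.mem_iff.1 (hU.mem_nhds hz0)
  set r : ℝ := ε / (2 * (‖v‖ + 1)) with hr
  have hv : 0 < ‖v‖ + 1 := by positivity
  have hrpos : 0 < r := by positivity
  have hrv : r * ‖v‖ ≤ ε / 2 := by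
    rw [hr, div_mul_eq_mul_div, div_le_div_iff₀ (by positivity) (by positivity)]
    nlinarith [norm_nonneg v]
  have key : ∀ z ∈ ball z0 (ε / 2), ∀ w : ℂ, ‖w‖ ≤ r → z + w • v ∈ U := by
    intro z hz w hw
    apply hball
    rw [mem_ball, dist_eq_norm] at hz ⊢
    have : ‖z + w • v - z0‖ ≤ ‖z - z0‖ + ‖w‖ * ‖v‖ := by
      rw [← norm_smul]
      have : z + w • v - z0 = (z - z0) + w • v := by abel
      rw [this]; exact norm_add_le _ _
    nlinarith [mul_le_mul_of_nonneg_right hw (norm_nonneg v)]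
  have h1 : ContinuousOn (fun z => (1 / (2 * π * r) : ℂ) * ∫ θ in (0 : ℝ)..(2 * π),
      Complex.exp (-(θ * Complex.I)) * F (z + circleMap 0 r θ • v)) (ball z0 (ε / 2)) := by
    refine ContinuousOn.mul continuousOn_const ?_
    refine scv_cont_int _ isOpen_ball 0 (2 * π) (by positivity)
      (fun z θ => Complex.exp (-(θ * Complex.I)) * F (z + circleMap 0 r θ • v)) ?_
    refine ContinuousOn.mul (by fun_prop) ?_
    refine hF.continuousOn.comp (f := fun p : E × ℝ => p.1 + circleMap 0 r p.2 • v) ?_ ?_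
    · have : Continuous (fun p : E × ℝ => circleMap 0 r p.2) := (continuous_circleMap 0 r).comp continuous_snd
      fun_prop
    · rintro ⟨z, θ⟩ ⟨hz, -⟩
      exact key z hz _ (by simp [abs_of_pos hrpos])
  have h2 : ContinuousAt (fun z => fderiv ℂ F z v) z0 := by
    refine (h1.continuousAt (ball_mem_nhds z0 (by positivity))).congr ?_
    filter_upwards [ball_mem_nhds z0 (half_pos hε)] with z hz
    exact (scv_cauchy U F hU hF z v r hrpos (key z hz)).symm
  exact h2.continuousWithinAt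

theorem scv_fderiv_cont {E : Type*} [NormedAddCommGroup E] [NormedSpace ℂ E] [FiniteDimensional ℂ E]
    (U : Set E) (F : E → ℂ) (hU : IsOpen U) (hF : DifferentiableOn ℂ F U) :
    ContinuousOn (fun z => fderiv ℂ F z) U := by
  have : ProperSpace E := FiniteDimensional.proper ℂ E
  exact continuousOn_clm_apply.2 fun v => scv_fderiv_apply_cont U F hU hF v

theorem scv_fderiv_apply_diff {E : Type*} [NormedAddCommGroup E] [NormedSpace ℂ E] [FiniteDimensional ℂ E]
    (U : Set E) (F : E → ℂ) (hU : IsOpen U) (hF : DifferentiableOn ℂ F U) (v : E) :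
    DifferentiableOn ℂ (fun z => fderiv ℂ F z v) U := by
  have : ProperSpace E := FiniteDimensional.proper ℂ E
  intro z0 hz0
  obtain ⟨ε, hε, hball⟩ := Metric.nhds_basis_ball.mem_iff.1 (hU.mem_nhds hz0)
  set r : ℝ := ε / (2 * (‖v‖ + 1)) with hr
  have hv : 0 < ‖v‖ + 1 := by positivity
  have hrpos : 0 < r := by positivity
  have hrv : r * ‖v‖ ≤ ε / 2 := by
    rw [hr, div_mul_eq_mul_div, div_le_div_iff₀ (by positivity) (by positivity)]
    nlinarith [norm_nonneg v]
  have key : ∀ z ∈ ball z0 (ε / 2), ∀ w : ℂ, ‖w‖ ≤ r → z + w • v ∈ U := by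
    intro z hz w hw
    apply hball
    rw [mem_ball, dist_eq_norm] at hz ⊢
    have : ‖z + w • v - z0‖ ≤ ‖z - z0‖ + ‖w‖ * ‖v‖ := by
      rw [← norm_smul]
      have : z + w • v - z0 = (z - z0) + w • v := by abel
      rw [this]; exact norm_add_le _ _
    nlinarith [mul_le_mul_of_nonneg_right hw (norm_nonneg v)]
  have hmaps : ∀ p ∈ (ball z0 (ε / 2)) ×ˢ Icc 0 (2 * π), p.1 + circleMap 0 r p.2 • v ∈ U := by
    rintro ⟨z, θ⟩ ⟨hz, -⟩
    exact key z hz _ (by simp [abs_of_pos hrpos])
  have hcm : Continuous (fun p : E × ℝ => p.1 + circleMap 0 r p.2 • v) := by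
    have : Continuous (fun p : E × ℝ => circleMap 0 r p.2) := (continuous_circleMap 0 r).comp continuous_snd
    fun_prop
  have h1 := scv_fderiv_int (ball z0 (ε / 2)) isOpen_ball 0 (2 * π) (by positivity)
      (fun z θ => Complex.exp (-(θ * Complex.I)) * F (z + circleMap 0 r θ • v))
      (fun z θ => Complex.exp (-(θ * Complex.I)) • fderiv ℂ F (z + circleMap 0 r θ • v)) (by
        refine ContinuousOn.mul (by fun_prop) ?_
        exact hF.continuousOn.comp (f := fun p : E × ℝ => p.1 + circleMap 0 r p.2 • v)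
          hcm.continuousOn hmaps) (by
        refine ContinuousOn.smul (f := fun p : E × ℝ => Complex.exp (-((p.2 : ℂ) * Complex.I)))
          (g := fun p : E × ℝ => fderiv ℂ F (p.1 + circleMap 0 r p.2 • v)) (by fun_prop) ?_
        exact (scv_fderiv_cont U F hU hF).comp (f := fun p : E × ℝ => p.1 + circleMap 0 r p.2 • v)
          hcm.continuousOn hmaps) (by
        intro z hz θ hθ
        refine HasFDerivAt.const_mul ?_ _
        have h2 := ((hF _ (hmaps (z, θ) ⟨hz, hθ⟩)).differentiableAt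
          (hU.mem_nhds (hmaps (z, θ) ⟨hz, hθ⟩))).hasFDerivAt
        have h3 : HasFDerivAt (fun z : E => z + circleMap 0 r θ • v) (ContinuousLinearMap.id ℂ E) z :=
          (hasFDerivAt_id z).add_const _
        have h4 := h2.comp z h3
        rw [ContinuousLinearMap.comp_id] at h4
        exact h4)
  have h2 : DifferentiableAt ℂ (fun z => fderiv ℂ F z v) z0 := by
    have h3 := (h1 z0 (mem_ball_self (by positivity))).const_mul (1 / (2 * π * r) : ℂ)
    refine h3.differentiableAt.congr_of_eventuallyEq ?_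
    filter_upwards [ball_mem_nhds z0 (half_pos hε)] with z hz
    exact (scv_cauchy U F hU hF z v r hrpos (key z hz))
  exact h2.differentiableWithinAt

/-- holomorphic functions of several variables are smooth -/
theorem scv_contDiffOn {E : Type*} [NormedAddCommGroup E] [NormedSpace ℂ E] [FiniteDimensional ℂ E]
    (U : Set E) (hU : IsOpen U) (n : ℕ) : ∀ (F : E → ℂ), DifferentiableOn ℂ F U →
    ContDiffOn ℂ n F U := by
  induction n with
  | zero => intro F hF; simpa [contDiffOn_zero] using hF.continuousOn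
  | succ n ih =>
    intro F hF
    have := (contDiffOn_succ_iff_fderiv_apply (𝕜 := ℂ) (n := n) (f := F) (s := U) hU.uniqueDiffOn).2
    push_cast
    refine this ⟨hF, by simp, fun y => ?_⟩
    refine (ih _ (scv_fderiv_apply_diff U F hU hF y)).congr ?_
    intro z hz
    rw [fderivWithin_of_isOpen hU hz]

/-- partial derivative -/
def pd {n : ℕ} (j : Fin n) (F : (Fin n → ℂ) → ℂ) (z : Fin n → ℂ) : ℂ :=
  deriv (fun t => F (Function.update z j t)) (z j)

theorem scv_pd_eq {n : ℕ} (U : Set (Fin n → ℂ)) (hU : IsOpen U) (F : (Fin n → ℂ) → ℂ)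
    (hF : DifferentiableOn ℂ F U) (j : Fin n) (z : Fin n → ℂ) (hz : z ∈ U) :
    pd j F z = fderiv ℂ F z (Pi.single j 1) := by
  have h1 : HasFDerivAt F (fderiv ℂ F z) z := ((hF _ hz).differentiableAt (hU.mem_nhds hz)).hasFDerivAt
  have h2 : HasDerivAt (fun t : ℂ => Function.update z j t) (Pi.single j 1) (z j) :=
    hasDerivAt_update z j (z j)
  have h3 : HasFDerivAt F (fderiv ℂ F z) (Function.update z j (z j)) := by
    rw [Function.update_eq_self]; exact h1
  exact (h3.comp_hasDerivAt (z j) h2).deriv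

theorem scv_fderiv_eq {n : ℕ} (U : Set (Fin n → ℂ)) (hU : IsOpen U) (F : (Fin n → ℂ) → ℂ)
    (hF : DifferentiableOn ℂ F U) (z : Fin n → ℂ) (hz : z ∈ U) (v : Fin n → ℂ) :
    fderiv ℂ F z v = ∑ j, v j * pd j F z := by
  have h1 : v = ∑ j, v j • (Pi.single j (1 : ℂ) : Fin n → ℂ) := by
    funext k
    simp [Finset.sum_apply, Pi.single_apply]
  conv_lhs => rw [h1]
  rw [map_sum]
  refine Finset.sum_congr rfl fun j _ => ?_
  rw [map_smul, scv_pd_eq U hU F hF j z hz, smul_eq_mul]

/-- chain rule -/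
theorem scv_chain {n : ℕ} (U : Set (Fin n → ℂ)) (hU : IsOpen U) (F : (Fin n → ℂ) → ℂ)
    (hF : DifferentiableOn ℂ F U) (c : ℂ → Fin n → ℂ) (c' : Fin n → ℂ) (t : ℂ)
    (hc : ∀ j, HasDerivAt (fun t => c t j) (c' j) t) (hz : c t ∈ U) :
    HasDerivAt (fun t => F (c t)) (∑ j, c' j * pd j F (c t)) t := by
  have h1 : HasFDerivAt F (fderiv ℂ F (c t)) (c t) :=
    ((hF _ hz).differentiableAt (hU.mem_nhds hz)).hasFDerivAt
  have h2 : HasDerivAt c c' t := hasDerivAt_pi.2 hc
  have h3 := h1.comp_hasDerivAt t h2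
  rw [scv_fderiv_eq U hU F hF _ hz] at h3
  exact h3

theorem scv_pd_diff {n : ℕ} (U : Set (Fin n → ℂ)) (hU : IsOpen U) (F : (Fin n → ℂ) → ℂ)
    (hF : DifferentiableOn ℂ F U) (j : Fin n) : DifferentiableOn ℂ (pd j F) U :=
  (scv_fderiv_apply_diff U F hU hF (Pi.single j 1)).congr fun z hz => scv_pd_eq U hU F hF j z hz

theorem scv_pd_comm {n : ℕ} (U : Set (Fin n → ℂ)) (hU : IsOpen U) (F : (Fin n → ℂ) → ℂ)
    (hF : DifferentiableOn ℂ F U) (j k : Fin n) (z : Fin n → ℂ) (hz : z ∈ U) :
    pd j (pd k F) z = pd k (pd j F) z := by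
  have h0 : ContDiffAt ℂ 2 F z := by
    have := (scv_contDiffOn U hU 2 F hF).contDiffAt (hU.mem_nhds hz)
    exact_mod_cast this
  have hs := h0.isSymmSndFDerivAt (by simp)
  have h2 : DifferentiableAt ℂ (fderiv ℂ F) z := by
    have : ContDiffAt ℂ 1 (fderiv ℂ F) z := h0.fderiv_right (by norm_num)
    exact this.differentiableAt (by norm_num)
  have key : ∀ j k : Fin n, pd j (pd k F) z = fderiv ℂ (fderiv ℂ F) z (Pi.single j 1) (Pi.single k 1) := by
    intro j k
    rw [scv_pd_eq U hU (pd k F) (scv_pd_diff U hU F hF k) j z hz]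
    have h3 : pd k F =ᶠ[𝓝 z] fun w => fderiv ℂ F w (Pi.single k 1) := by
      filter_upwards [hU.mem_nhds hz] with w hw
      exact scv_pd_eq U hU F hF k w hw
    rw [h3.fderiv_eq]
    rw [fderiv_clm_apply h2 (differentiableAt_const _)]
    simp
  rw [key, key]
  exact hs.eq _ _

theorem scv_pd_congr {n : ℕ} (U : Set (Fin n → ℂ)) (hU : IsOpen U) (F G : (Fin n → ℂ) → ℂ)
    (hFG : ∀ z ∈ U, F z = G z) (j : Fin n) (z : Fin n → ℂ) (hz : z ∈ U) : pd j F z = pd j G z := by
  have hc : Filter.Tendsto (fun t : ℂ => Function.update z j t) (𝓝 (z j)) (𝓝 z) := by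
    have : Continuous (fun t : ℂ => Function.update z j t) := by fun_prop
    have h := this.tendsto (z j)
    simpa using h
  have h1 : (fun t => F (Function.update z j t)) =ᶠ[𝓝 (z j)] fun t => G (Function.update z j t) := by
    filter_upwards [hc (hU.mem_nhds hz)] with t ht
    exact hFG _ ht
  exact h1.deriv_eq

theorem scv_PU_open {q : ℕ} {U : Set ℂ} (hU : IsOpen U) : IsOpen (PU q U) := by
  have : PU q U = Set.pi Set.univ (fun _ : Fin q => U) := by
    ext z; simp [PU]
  rw [this]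
  exact isOpen_set_pi Set.finite_univ (fun _ _ => hU)

theorem scv_St_open (s : ℝ) : IsOpen (St s) := by
  have : St s = (fun z : ℂ => |z.im|) ⁻¹' (Set.Iio s) := rfl
  rw [this]
  exact (by fun_prop : Continuous (fun z : ℂ => |z.im|)).isOpen_preimage _ isOpen_Iio

end

end Pool.Agent.Helper67.DO
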