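import Pool.Agent.Helper89.DO.E7b

/-!
# E7: contraction with GV commutes with the boundary
-/

namespace Pool.Agent.Helper67.DO

open scoped BigOperators Real Topology
open MeasureTheory Set Metric

noncomputable section

/-- iterated partial derivatives -/
def e7_dl {n : ℕ} : List (Fin n) → ((Fin n → ℂ) → ℂ) → ((Fin n → ℂ) → ℂ)
  | [], F => F
  | a :: l, F => pd a (e7_dl l F)

theorem e7_dl_diff {n : ℕ} {U : Set ℂ} (hU : IsOpen U) {F : (Fin n → ℂ) → ℂ}
    (hF : DifferentiableOn ℂ F (PU n U)) (l : List (Fin n)) : DifferentiableOn ℂ (e7_dl l F) (PU n U) := by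
  induction l with
  | nil => exact hF
  | cons a l ih => exact scv_pd_diff _ (scv_PU_open hU) _ ih a

theorem e7_dl_per {n : ℕ} {U : Set ℂ} (hU : IsOpen U) {F : (Fin n → ℂ) → ℂ}
    (hF : E7Per U F) (l : List (Fin n)) : E7Per U (e7_dl l F) := by
  induction l with
  | nil => exact hF
  | cons a l ih => exact e7_per_pd hU ih a

theorem e7_dl_perm {n : ℕ} {U : Set ℂ} (hU : IsOpen U) {F : (Fin n → ℂ) → ℂ}
    (hF : DifferentiableOn ℂ F (PU n U)) {l l' : List (Fin n)} (h : l.Perm l') :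
    ∀ z ∈ PU n U, e7_dl l F z = e7_dl l' F z := by
  induction h with
  | nil => intro z _; rfl
  | cons a _ ih =>
    intro z hz
    exact scv_pd_congr _ (scv_PU_open hU) _ _ ih a z hz
  | swap a b l =>
    intro z hz
    exact scv_pd_comm _ (scv_PU_open hU) _ (e7_dl_diff hU hF l) b a z hz
  | trans _ _ ih1 ih2 =>
    intro z hz
    rw [ih1 z hz, ih2 z hz]

theorem e7_dl_rel {n : ℕ} {U : Set ℂ} (hU : IsOpen U) {σ : Equiv.Perm (Fin n)} {c : ℂ}
    {F : (Fin n → ℂ) → ℂ} (h : E7Rel U σ c F F) (l : List (Fin n)) :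
    E7Rel U σ c (e7_dl l F) (e7_dl (l.map σ.symm) F) := by
  induction l with
  | nil => exact h
  | cons a l ih => exact e7_rel_pd hU ih a

/-- antisymmetry at a diagonal point -/
theorem e7_dl_swap {n : ℕ} {U : Set ℂ} (hU : IsOpen U) {F : (Fin n → ℂ) → ℂ} (hF : BO n U F)
    (a b : Fin n) (hab : a ≠ b) (z : Fin n → ℂ) (hz : z ∈ PU n U) (hzab : z a = z b) (l : List (Fin n)) :
    e7_dl (l.map (Equiv.swap a b)) F z = - e7_dl l F z := by
  have hrel : E7Rel U (Equiv.swap a b) (-1) F F := by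
    intro w hw
    have := hF.alt w hw (Equiv.swap a b)
    rw [Equiv.Perm.sign_swap hab] at this
    rw [this]; simp
  have h1 := e7_dl_rel hU hrel l z hz
  rw [Equiv.symm_swap] at h1
  have h2 : (fun i => z (Equiv.swap a b i)) = z := by
    funext i
    by_cases h : i = a
    · subst h; rw [Equiv.swap_apply_left, hzab]
    · by_cases h' : i = b
      · subst h'; rw [Equiv.swap_apply_right, hzab]
      · rw [Equiv.swap_apply_of_ne_of_ne h h']
  rw [h2] at h1
  rw [h1]; ring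

theorem e7_dl_zero {n : ℕ} {U : Set ℂ} (hU : IsOpen U) {F : (Fin n → ℂ) → ℂ} (hF : BO n U F)
    (a b : Fin n) (hab : a ≠ b) (z : Fin n → ℂ) (hz : z ∈ PU n U) (hzab : z a = z b) (l : List (Fin n))
    (hl : (l.map (Equiv.swap a b)).Perm l) : e7_dl l F z = 0 := by
  have h1 := e7_dl_swap hU hF a b hab z hz hzab l
  rw [e7_dl_perm hU hF.hol hl z hz] at h1
  have h2 : (2 : ℂ) * e7_dl l F z = 0 := by linear_combination h1
  exact (mul_eq_zero.1 h2).resolve_left two_ne_zero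

theorem e7_permtac1 {n : ℕ} (a b c : Fin n) (hca : c ≠ a) (hcb : c ≠ b) :
    ([a, c, c, b].map (Equiv.swap a b)).Perm [a, c, c, b] := by
  simp only [List.map_cons, List.map_nil, Equiv.swap_apply_left, Equiv.swap_apply_right,
    Equiv.swap_apply_of_ne_of_ne hca hcb]
  rw [List.perm_iff_count]; intro x
  simp only [List.count_cons, List.count_nil]; ring

theorem e7_permtac2 {n : ℕ} (a b : Fin n) :
    ([a, b, b, a].map (Equiv.swap a b)).Perm [a, b, b, a] := by
  simp only [List.map_cons, List.map_nil, Equiv.swap_apply_left, Equiv.swap_apply_right]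
  rw [List.perm_iff_count]; intro x
  simp only [List.count_cons, List.count_nil]; ring

theorem e7_permtac3 {n : ℕ} (a b c : Fin n) (hca : c ≠ a) (hcb : c ≠ b) :
    ([a, b, c, c].map (Equiv.swap a b)).Perm [a, b, c, c] := by
  simp only [List.map_cons, List.map_nil, Equiv.swap_apply_left, Equiv.swap_apply_right,
    Equiv.swap_apply_of_ne_of_ne hca hcb]
  rw [List.perm_iff_count]; intro x
  simp only [List.count_cons, List.count_nil]; ring

theorem e7_permtac4 {n : ℕ} (a b c : Fin n) (hca : c ≠ a) (hcb : c ≠ b) :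
    ([a, c, b, c].map (Equiv.swap a b)).Perm [a, c, b, c] := by
  simp only [List.map_cons, List.map_nil, Equiv.swap_apply_left, Equiv.swap_apply_right,
    Equiv.swap_apply_of_ne_of_ne hca hcb]
  rw [List.perm_iff_count]; intro x
  simp only [List.count_cons, List.count_nil]; ring

theorem e7_permtac5 {n : ℕ} (a b : Fin n) :
    ([a, a, b, b].map (Equiv.swap a b)).Perm [a, a, b, b] := by
  simp only [List.map_cons, List.map_nil, Equiv.swap_apply_left, Equiv.swap_apply_right]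
  rw [List.perm_iff_count]; intro x
  simp only [List.count_cons, List.count_nil]; ring

/-- the triple diagonal point -/
def e7_p3 {q : ℕ} (x : ℂ) (v : Fin q → ℂ) : Fin (q + 3) → ℂ := Fin.cons x (e7_pt x v)

theorem e7_p3_mem {q : ℕ} {s : ℝ} (hs : 0 < s) (x : ℝ) {v : Fin q → ℂ} (hv : v ∈ PU q (St s)) :
    e7_p3 (x : ℂ) v ∈ PU (q + 3) (St s) := by
  intro i
  refine Fin.cases ?_ (fun i => ?_) i
  · simp [e7_p3, St, hs]
  · exact e7_pt_mem hs x hv i

theorem e7_ne {q : ℕ} : (0 : Fin (q + 3)) ≠ 1 ∧ (0 : Fin (q + 3)) ≠ 2 ∧ (1 : Fin (q + 3)) ≠ 2 := by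
  refine ⟨?_, ?_, ?_⟩
  · exact (Fin.succ_ne_zero (0 : Fin (q + 2))).symm
  · exact (Fin.succ_ne_zero (Fin.succ (0 : Fin (q + 1)))).symm
  · intro h
    exact (Fin.succ_ne_zero (0 : Fin (q + 1))).symm (Fin.succ_injective _ h)

theorem e7_two {q : ℕ} : (2 : Fin (q + 3)) = Fin.succ (Fin.succ 0) := rfl

theorem e7_insert_mem {n : ℕ} {U : Set ℂ} {z : Fin n → ℂ} (hz : z ∈ PU n U) (i : Fin n) :
    (i.succ.insertNth (z i) z : Fin (n + 1) → ℂ) ∈ PU (n + 1) U := by
  intro k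
  refine Fin.succAboveCases i.succ ?_ (fun k => ?_) k
  · rw [Fin.insertNth_apply_same]; exact hz i
  · rw [Fin.insertNth_apply_succAbove]; exact hz k

theorem e7_insert_diff {n : ℕ} {U : Set ℂ} {G : (Fin (n + 1) → ℂ) → ℂ}
    (hG : DifferentiableOn ℂ G (PU (n + 1) U)) (i : Fin n) :
    DifferentiableOn ℂ (fun z : Fin n → ℂ => G (i.succ.insertNth (z i) z)) (PU n U) := by
  refine hG.comp ?_ (fun z hz => e7_insert_mem hz i)
  refine Differentiable.differentiableOn (differentiable_pi.2 fun k => ?_)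
  refine Fin.succAboveCases i.succ ?_ (fun k => ?_) k
  · simp only [Fin.insertNth_apply_same]; exact differentiable_apply _
  · simp only [Fin.insertNth_apply_succAbove]; exact differentiable_apply _

/-- `dd` through partial derivatives -/
theorem e7_dd_eq {n : ℕ} (F : (Fin (n + 1) → ℂ) → ℂ) (z : Fin n → ℂ) (i : Fin n) :
    deriv (fun t : ℂ => F (i.succ.insertNth t z)) (z i) = pd i.succ F (i.succ.insertNth (z i) z) := by
  unfold pd
  simp only [Fin.update_insertNth, Fin.insertNth_apply_same]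

/-- first term -/
theorem e7_K0 {q : ℕ} {s : ℝ} (hs : 0 < s) {F : (Fin (q + 3) → ℂ) → ℂ} (hF : BO (q + 3) (St s) F)
    (x : ℝ) (v : Fin q → ℂ) (hv : v ∈ PU q (St s)) :
    e7_g (fun z : Fin (q + 2) → ℂ => pd 1 F ((Fin.succ 0).insertNth (z 0) z)) (e7_pt (x : ℂ) v)
      = e7_dl [0, 2, 2, 1] F (e7_p3 (x : ℂ) v) + e7_dl [1, 2, 2, 1] F (e7_p3 (x : ℂ) v) := by
  have hU := scv_St_open s
  have h01 : (0 : Fin (q + 2)) ≠ 1 := by intro h; have := congrArg Fin.val h; simp at this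
  have hsa : (Fin.succ (0 : Fin (q + 2))).succAbove 1 = 2 := rfl
  have h1 : ∀ G : (Fin (q + 3) → ℂ) → ℂ,
      pd 1 (fun z : Fin (q + 2) → ℂ => G ((Fin.succ 0).insertNth (z 0) z))
        = fun z => pd 2 G ((Fin.succ 0).insertNth (z 0) z) := by
    intro G; funext z
    have := e7_pd_insert G (0 : Fin (q + 2)) 1 h01 z
    rw [hsa] at this
    exact this
  unfold e7_g
  rw [h1, h1]
  have h2 := e7_pd_insert_self hU (pd 2 (pd 2 (pd 1 F)))
    (e7_dl_diff hU hF.hol [2, 2, 1]) (0 : Fin (q + 2)) (e7_pt (x : ℂ) v) (e7_pt_mem hs x hv)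
  have h3 : (Fin.succ (0 : Fin (q + 2))).insertNth (e7_pt (x : ℂ) v 0) (e7_pt (x : ℂ) v)
      = e7_p3 (x : ℂ) v := by
    unfold e7_pt e7_p3 e7_pt
    rw [Fin.insertNth_succ_cons, Fin.insertNth_zero']; rfl
  rw [h3] at h2
  exact h2

theorem e7_pd_add {n : ℕ} {U : Set ℂ} (hU : IsOpen U) {F G : (Fin n → ℂ) → ℂ}
    (hF : DifferentiableOn ℂ F (PU n U)) (hG : DifferentiableOn ℂ G (PU n U)) (j : Fin n)
    (z : Fin n → ℂ) (hz : z ∈ PU n U) : pd j (fun z => F z + G z) z = pd j F z + pd j G z := by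
  have hO := scv_PU_open (q := n) hU
  have h := e7_pd_sum hU (fun _ : Bool => (1 : ℂ)) (fun b => if b then F else G)
    (fun b => by cases b <;> simpa) j z hz
  simpa using h

/-- second term -/
theorem e7_K1 {q : ℕ} {s : ℝ} (hs : 0 < s) {F : (Fin (q + 3) → ℂ) → ℂ} (hF : BO (q + 3) (St s) F)
    (x : ℝ) (v : Fin q → ℂ) (hv : v ∈ PU q (St s)) :
    e7_g (fun z : Fin (q + 2) → ℂ => pd 2 F ((Fin.succ 1).insertNth (z 1) z)) (e7_pt (x : ℂ) v)
      = e7_dl [0, 1, 1, 2] F (e7_p3 (x : ℂ) v) + e7_dl [0, 1, 2, 2] F (e7_p3 (x : ℂ) v)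
        + (e7_dl [0, 2, 1, 2] F (e7_p3 (x : ℂ) v) + e7_dl [0, 2, 2, 2] F (e7_p3 (x : ℂ) v)) := by
  have hU := scv_St_open s
  have hO := scv_PU_open (q := q + 2) hU
  have h10 : (1 : Fin (q + 2)) ≠ 0 := by intro h; have := congrArg Fin.val h; simp at this
  have hsa : (Fin.succ (1 : Fin (q + 2))).succAbove 0 = 0 := rfl
  have h0 : ∀ G : (Fin (q + 3) → ℂ) → ℂ,
      pd 0 (fun z : Fin (q + 2) → ℂ => G ((Fin.succ 1).insertNth (z 1) z))
        = fun z => pd 0 G ((Fin.succ 1).insertNth (z 1) z) := by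
    intro G; funext z
    have := e7_pd_insert G (1 : Fin (q + 2)) 0 h10 z
    rw [hsa] at this
    exact this
  have h1 : ∀ G : (Fin (q + 3) → ℂ) → ℂ, DifferentiableOn ℂ G (PU (q + 3) (St s)) →
      ∀ z ∈ PU (q + 2) (St s),
      pd 1 (fun z : Fin (q + 2) → ℂ => G ((Fin.succ 1).insertNth (z 1) z)) z
        = pd 1 G ((Fin.succ 1).insertNth (z 1) z) + pd 2 G ((Fin.succ 1).insertNth (z 1) z) :=
    fun G hG z hz => e7_pd_insert_self hU G hG (1 : Fin (q + 2)) z hz
  set A : (Fin (q + 3) → ℂ) → ℂ := fun w => e7_dl [1, 2] F w + e7_dl [2, 2] F w with hA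
  have dA : DifferentiableOn ℂ A (PU (q + 3) (St s)) :=
    (e7_dl_diff hU hF.hol [1, 2]).add (e7_dl_diff hU hF.hol [2, 2])
  have s1 : ∀ z ∈ PU (q + 2) (St s),
      pd 1 (fun z : Fin (q + 2) → ℂ => pd 2 F ((Fin.succ 1).insertNth (z 1) z)) z
        = A ((Fin.succ 1).insertNth (z 1) z) := fun z hz => h1 _ (e7_dl_diff hU hF.hol [2]) z hz
  set B : (Fin (q + 3) → ℂ) → ℂ := fun w => pd 1 A w + pd 2 A w with hB
  have s2 : ∀ z ∈ PU (q + 2) (St s),
      pd 1 (pd 1 (fun z : Fin (q + 2) → ℂ => pd 2 F ((Fin.succ 1).insertNth (z 1) z))) z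
        = B ((Fin.succ 1).insertNth (z 1) z) := by
    intro z hz
    rw [scv_pd_congr _ hO _ _ s1 1 z hz]
    exact h1 _ dA z hz
  have hp : (Fin.succ (1 : Fin (q + 2))).insertNth (e7_pt (x : ℂ) v 1) (e7_pt (x : ℂ) v)
      = e7_p3 (x : ℂ) v := by
    have h11 : (1 : Fin (q + 2)) = Fin.succ 0 := rfl
    unfold e7_pt e7_p3 e7_pt
    rw [h11, Fin.insertNth_succ_cons, Fin.insertNth_succ_cons, Fin.insertNth_zero']; rfl
  unfold e7_g
  rw [scv_pd_congr _ hO _ _ s2 0 _ (e7_pt_mem hs x hv), h0]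
  simp only [hp]
  have hO3 := scv_PU_open (q := q + 3) hU
  have hBe : ∀ w ∈ PU (q + 3) (St s), B w = (e7_dl [1, 1, 2] F w + e7_dl [1, 2, 2] F w)
      + (e7_dl [2, 1, 2] F w + e7_dl [2, 2, 2] F w) := by
    intro w hw
    rw [hB, hA]
    simp only
    rw [e7_pd_add hU (e7_dl_diff hU hF.hol [1, 2]) (e7_dl_diff hU hF.hol [2, 2]) 1 w hw,
      e7_pd_add hU (e7_dl_diff hU hF.hol [1, 2]) (e7_dl_diff hU hF.hol [2, 2]) 2 w hw]
    rfl
  rw [scv_pd_congr _ hO3 _ _ hBe 0 _ (e7_p3_mem hs x hv)]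
  rw [e7_pd_add hU (F := fun w => e7_dl [1, 1, 2] F w + e7_dl [1, 2, 2] F w)
    (G := fun w => e7_dl [2, 1, 2] F w + e7_dl [2, 2, 2] F w)
    ((e7_dl_diff hU hF.hol [1, 1, 2]).add (e7_dl_diff hU hF.hol [1, 2, 2]))
    ((e7_dl_diff hU hF.hol [2, 1, 2]).add (e7_dl_diff hU hF.hol [2, 2, 2])) 0 _ (e7_p3_mem hs x hv),
    e7_pd_add hU (e7_dl_diff hU hF.hol [1, 1, 2]) (e7_dl_diff hU hF.hol [1, 2, 2]) 0 _ (e7_p3_mem hs x hv),
    e7_pd_add hU (e7_dl_diff hU hF.hol [2, 1, 2]) (e7_dl_diff hU hF.hol [2, 2, 2]) 0 _ (e7_p3_mem hs x hv)]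
  rfl

/-- the chain rule along `x ↦ (x,x,x,v)` -/
theorem e7_chain {q : ℕ} {s : ℝ} (hs : 0 < s) {G : (Fin (q + 3) → ℂ) → ℂ}
    (hG : DifferentiableOn ℂ G (PU (q + 3) (St s))) (x : ℝ) (v : Fin q → ℂ) (hv : v ∈ PU q (St s)) :
    HasDerivAt (fun t : ℂ => G (e7_p3 t v)) (pd 0 G (e7_p3 (x : ℂ) v) + pd 1 G (e7_p3 (x : ℂ) v)
      + pd 2 G (e7_p3 (x : ℂ) v)) (x : ℂ) := by
  have hO3 := scv_PU_open (q := q + 3) (scv_St_open s)
  obtain ⟨n01, n02, n12⟩ := @e7_ne q
  have h1 := scv_chain _ hO3 G hG (fun t => e7_p3 t v) (Pi.single 0 1 + Pi.single 1 1 + Pi.single 2 1)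
    (x : ℂ) ?_ (e7_p3_mem hs x hv)
  · have h2 : ∑ j, (Pi.single 0 1 + Pi.single 1 1 + Pi.single 2 1 : Fin (q + 3) → ℂ) j
        * pd j G (e7_p3 (x : ℂ) v) = pd 0 G (e7_p3 (x : ℂ) v) + pd 1 G (e7_p3 (x : ℂ) v)
      + pd 2 G (e7_p3 (x : ℂ) v) := by
      simp only [Pi.add_apply, add_mul, Finset.sum_add_distrib, Pi.single_apply, ite_mul, one_mul,
        zero_mul, Finset.sum_ite_eq', Finset.mem_univ, if_true]
    rw [h2] at h1
    exact h1
  · intro j
    refine Fin.cases ?_ (fun j => ?_) j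
    · simp only [Pi.add_apply, Pi.single_eq_same, Pi.single_eq_of_ne n01, Pi.single_eq_of_ne n02, add_zero]
      exact hasDerivAt_id (x : ℂ)
    · refine Fin.cases ?_ (fun j => ?_) j
      · have e1 : Fin.succ (0 : Fin (q + 2)) = 1 := rfl
        rw [e1]
        simp only [Pi.add_apply, Pi.single_eq_same, Pi.single_eq_of_ne n01.symm,
          Pi.single_eq_of_ne n12, add_zero, zero_add]
        exact hasDerivAt_id (x : ℂ)
      · refine Fin.cases ?_ (fun j => ?_) j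
        · have e1 : Fin.succ (Fin.succ (0 : Fin (q + 1))) = 2 := rfl
          rw [e1]
          simp only [Pi.add_apply, Pi.single_eq_same, Pi.single_eq_of_ne n02.symm,
            Pi.single_eq_of_ne n12.symm, add_zero, zero_add]
          exact hasDerivAt_id (x : ℂ)
        · have m0 : j.succ.succ.succ ≠ 0 := Fin.succ_ne_zero _
          have m1 : j.succ.succ.succ ≠ 1 := by
            intro h
            have h' : j.succ.succ.succ = Fin.succ 0 := h
            exact Fin.succ_ne_zero _ (Fin.succ_injective _ h')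
          have m2 : j.succ.succ.succ ≠ 2 := by
            intro h
            have h' : j.succ.succ.succ = Fin.succ (Fin.succ 0) := h
            exact Fin.succ_ne_zero _ (Fin.succ_injective _ (Fin.succ_injective _ h'))
          simp only [Pi.add_apply, Pi.single_eq_of_ne m0, Pi.single_eq_of_ne m1,
            Pi.single_eq_of_ne m2, add_zero]
          exact hasDerivAt_const _ _

/-- the total derivative -/
theorem e7_T {q : ℕ} {s : ℝ} (hs : 0 < s) {F : (Fin (q + 3) → ℂ) → ℂ} (hF : BO (q + 3) (St s) F)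
    (v : Fin q → ℂ) (hv : v ∈ PU q (St s)) :
    ∫ x in (0 : ℝ)..1, (e7_g (fun z : Fin (q + 2) → ℂ => pd 1 F ((Fin.succ 0).insertNth (z 0) z))
        (e7_pt (x : ℂ) v)
      - e7_g (fun z : Fin (q + 2) → ℂ => pd 2 F ((Fin.succ 1).insertNth (z 1) z)) (e7_pt (x : ℂ) v)) = 0 := by
  have hU := scv_St_open s
  obtain ⟨n01, n02, n12⟩ := @e7_ne q
  have p01 : ∀ x : ℂ, e7_p3 x v 0 = e7_p3 x v 1 := fun x => rfl
  have p02 : ∀ x : ℂ, e7_p3 x v 0 = e7_p3 x v 2 := fun x => rfl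
  have p12 : ∀ x : ℂ, e7_p3 x v 1 = e7_p3 x v 2 := fun x => rfl
  have hm : ∀ x : ℝ, e7_p3 (x : ℂ) v ∈ PU (q + 3) (St s) := fun x => e7_p3_mem hs x hv
  have hd : ∀ x : ℝ, HasDerivAt (fun x : ℝ => e7_dl [1, 2, 2] F (e7_p3 (x : ℂ) v))
      (- e7_dl [0, 2, 2, 2] F (e7_p3 (x : ℂ) v)) x := by
    intro x
    have h1 := e7_chain hs (e7_dl_diff hU hF.hol [1, 2, 2]) x v hv
    have z1 : pd 0 (e7_dl [1, 2, 2] F) (e7_p3 (x : ℂ) v) = 0 :=
      e7_dl_zero hU hF 0 1 n01 _ (hm x) (p01 x) [0, 1, 2, 2] (e7_permtac3 0 1 2 n02.symm n12.symm)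
    have z2 : pd 1 (e7_dl [1, 2, 2] F) (e7_p3 (x : ℂ) v) = 0 :=
      e7_dl_zero hU hF 1 2 n12 _ (hm x) (p12 x) [1, 1, 2, 2] (e7_permtac5 1 2)
    have z3 : pd 2 (e7_dl [1, 2, 2] F) (e7_p3 (x : ℂ) v) = - e7_dl [0, 2, 2, 2] F (e7_p3 (x : ℂ) v) := by
      have h2 := e7_dl_swap hU hF 0 1 n01 _ (hm x) (p01 x) [0, 2, 2, 2]
      simp only [List.map_cons, List.map_nil, Equiv.swap_apply_left,
        Equiv.swap_apply_of_ne_of_ne n02.symm n12.symm] at h2
      have h3 : e7_dl [2, 1, 2, 2] F (e7_p3 (x : ℂ) v) = e7_dl [1, 2, 2, 2] F (e7_p3 (x : ℂ) v) :=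
        e7_dl_perm hU hF.hol (List.Perm.swap _ _ _) _ (hm x)
      rw [← h2, ← h3]; rfl
    rw [z1, z2, z3, zero_add, zero_add] at h1
    exact h1.comp_ofReal
  have hT : ∀ x : ℝ, (e7_g (fun z : Fin (q + 2) → ℂ => pd 1 F ((Fin.succ 0).insertNth (z 0) z))
        (e7_pt (x : ℂ) v)
      - e7_g (fun z : Fin (q + 2) → ℂ => pd 2 F ((Fin.succ 1).insertNth (z 1) z)) (e7_pt (x : ℂ) v))
      = - e7_dl [0, 2, 2, 2] F (e7_p3 (x : ℂ) v) := by
    intro x
    rw [e7_K0 hs hF x v hv, e7_K1 hs hF x v hv]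
    rw [e7_dl_zero hU hF 0 1 n01 _ (hm x) (p01 x) [0, 2, 2, 1] (e7_permtac1 0 1 2 n02.symm n12.symm),
      e7_dl_zero hU hF 1 2 n12 _ (hm x) (p12 x) [1, 2, 2, 1] (e7_permtac2 1 2),
      e7_dl_zero hU hF 0 2 n02 _ (hm x) (p02 x) [0, 1, 1, 2] (e7_permtac1 0 2 1 n01.symm n12),
      e7_dl_zero hU hF 0 1 n01 _ (hm x) (p01 x) [0, 1, 2, 2] (e7_permtac3 0 1 2 n02.symm n12.symm),
      e7_dl_zero hU hF 0 1 n01 _ (hm x) (p01 x) [0, 2, 1, 2] (e7_permtac4 0 1 2 n02.symm n12.symm)]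
    ring
  simp only [hT]
  rw [intervalIntegral.integral_eq_sub_of_hasDerivAt (fun x _ => hd x)]
  · have hper := e7_dl_per hU hF.per [1, 2, 2]
    have e1 : e7_p3 ((1 : ℝ) : ℂ) v = Function.update (Function.update (Function.update
        (e7_p3 ((0 : ℝ) : ℂ) v) 0 1) 1 1) 2 1 := by
      funext i
      refine Fin.cases ?_ (fun i => ?_) i
      · rw [Function.update_of_ne n02, Function.update_of_ne n01, Function.update_self]
        simp [e7_p3]
      · refine Fin.cases ?_ (fun i => ?_) i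
        · have e1 : Fin.succ (0 : Fin (q + 2)) = 1 := rfl
          rw [e1, Function.update_of_ne n12, Function.update_self]
          show ((1 : ℝ) : ℂ) = 1
          simp
        · refine Fin.cases ?_ (fun j => ?_) i
          · have e1 : Fin.succ (Fin.succ (0 : Fin (q + 1))) = 2 := rfl
            rw [e1, Function.update_self]
            show ((1 : ℝ) : ℂ) = 1
            simp
          · have m0 : j.succ.succ.succ ≠ 0 := Fin.succ_ne_zero _
            have m1 : j.succ.succ.succ ≠ 1 := by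
              intro h
              have h' : j.succ.succ.succ = Fin.succ 0 := h
              exact Fin.succ_ne_zero _ (Fin.succ_injective _ h')
            have m2 : j.succ.succ.succ ≠ 2 := by
              intro h
              have h' : j.succ.succ.succ = Fin.succ (Fin.succ 0) := h
              exact Fin.succ_ne_zero _ (Fin.succ_injective _ (Fin.succ_injective _ h'))
            rw [Function.update_of_ne m2, Function.update_of_ne m1, Function.update_of_ne m0]
            rfl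
    have hm0 := hm 0
    have h1U : (1 : ℂ) ∈ St s := by simp [St, hs]
    have a0 : e7_p3 ((0 : ℝ) : ℂ) v 0 + 1 = 1 := by
      show ((0 : ℝ) : ℂ) + 1 = 1; simp
    have q0 := hper _ hm0 0
    rw [a0] at q0
    have hm1 := e7_upd_mem hm0 0 h1U
    have a1 : Function.update (e7_p3 ((0 : ℝ) : ℂ) v) 0 1 1 + 1 = 1 := by
      rw [Function.update_of_ne n01.symm]
      show ((0 : ℝ) : ℂ) + 1 = 1; simp
    have q1 := hper _ hm1 1
    rw [a1] at q1
    have hm2 := e7_upd_mem hm1 1 h1U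
    have a2 : Function.update (Function.update (e7_p3 ((0 : ℝ) : ℂ) v) 0 1) 1 1 2 + 1 = 1 := by
      rw [Function.update_of_ne n12.symm, Function.update_of_ne n02.symm]
      show ((0 : ℝ) : ℂ) + 1 = 1; simp
    have q2 := hper _ hm2 2
    rw [a2] at q2
    rw [e1, q2, q1, q0, sub_self]
  · refine ContinuousOn.intervalIntegrable ?_
    refine ContinuousOn.neg ?_
    refine (e7_dl_diff hU hF.hol [0, 2, 2, 2]).continuousOn.comp ?_ (fun x _ => hm x)
    refine Continuous.continuousOn (continuous_pi fun i => ?_)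
    refine Fin.cases ?_ (fun i => ?_) i
    · simp only [e7_p3, Fin.cons_zero]; fun_prop
    · simp only [e7_p3, Fin.cons_succ]
      exact (continuous_apply i).comp
        ((e7_pt_cont q).comp (by fun_prop : Continuous fun x : ℝ => (v, x)))

theorem e7_g_insert {q : ℕ} (G : (Fin (q + 3) → ℂ) → ℂ) (k : Fin q) :
    e7_g (fun z : Fin (q + 2) → ℂ => G (k.succ.succ.succ.insertNth (z k.succ.succ) z))
      = fun z => e7_g G (k.succ.succ.succ.insertNth (z k.succ.succ) z) := by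
  have n0 : k.succ.succ ≠ 0 := Fin.succ_ne_zero _
  have n1 : k.succ.succ ≠ 1 := by
    intro h
    have h' : k.succ.succ = Fin.succ 0 := h
    exact Fin.succ_ne_zero _ (Fin.succ_injective _ h')
  have h0 : ∀ G : (Fin (q + 3) → ℂ) → ℂ,
      pd 0 (fun z : Fin (q + 2) → ℂ => G (k.succ.succ.succ.insertNth (z k.succ.succ) z))
        = fun z => pd 0 G (k.succ.succ.succ.insertNth (z k.succ.succ) z) := by
    intro G; funext z
    have := e7_pd_insert G k.succ.succ 0 n0 z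
    rw [Fin.succ_succAbove_zero] at this
    exact this
  have h1 : ∀ G : (Fin (q + 3) → ℂ) → ℂ,
      pd 1 (fun z : Fin (q + 2) → ℂ => G (k.succ.succ.succ.insertNth (z k.succ.succ) z))
        = fun z => pd 1 G (k.succ.succ.succ.insertNth (z k.succ.succ) z) := by
    intro G; funext z
    have := e7_pd_insert G k.succ.succ 1 n1 z
    have h2 : (k.succ.succ.succ).succAbove (1 : Fin (q + 2)) = 1 := by
      rw [Fin.succ_succAbove_one, Fin.succ_succAbove_zero]; rfl
    rw [h2] at this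
    exact this
  unfold e7_g
  rw [h1, h1, h0]

theorem e7_comm (q : ℕ) (s : ℝ) (hs : 0 < s) (F : (Fin (q + 3) → ℂ) → ℂ) (hF : BO (q + 3) (St s) F)
    (v : Fin q → ℂ) (hv : v ∈ PU q (St s)) : gc q (dd (q + 2) F) v = dd q (gc (q + 1) F) v := by
  have hU := scv_St_open s
  have hO3 := scv_PU_open (q := q + 3) hU
  -- right-hand side
  have hR : dd q (gc (q + 1) F) v = ∑ k : Fin q, (-1 : ℂ) ^ (k : ℕ) *
      ∫ x in (0 : ℝ)..1, e7_g (pd k.succ.succ.succ F) (e7_pt (x : ℂ) (k.succ.insertNth (v k) v)) := by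
    unfold dd
    refine Finset.sum_congr rfl fun k _ => ?_
    rw [e7_dd_eq]
    congr 1
    have hgc : gc (q + 1) F = fun v => ∫ x in (0 : ℝ)..1, e7_g F (e7_pt (x : ℂ) v) := by
      funext v; exact e7_gc_eq _ F v
    have hmem := e7_insert_mem hv k
    rw [hgc, (e7_int hs (e7_g_diff hF.hol) _ hmem).2 k.succ]
    refine intervalIntegral.integral_congr fun x _ => ?_
    have hpm := e7_pt_mem hs x hmem
    exact e7_dl_perm (l := [k.succ.succ.succ, 0, 1, 1]) (l' := [0, 1, 1, k.succ.succ.succ]) hU hF.hol (by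
      rw [List.perm_iff_count]; intro x
      simp only [List.count_cons, List.count_nil]; ring) _ hpm
  rw [hR, e7_gc_eq]
  -- left-hand side
  have hL : ∀ x : ℝ, e7_g (dd (q + 2) F) (e7_pt (x : ℂ) v)
      = (e7_g (fun z : Fin (q + 2) → ℂ => pd 1 F ((Fin.succ 0).insertNth (z 0) z)) (e7_pt (x : ℂ) v)
        - e7_g (fun z : Fin (q + 2) → ℂ => pd 2 F ((Fin.succ 1).insertNth (z 1) z)) (e7_pt (x : ℂ) v))
        + ∑ k : Fin q, (-1 : ℂ) ^ (k : ℕ) *
          e7_g (pd k.succ.succ.succ F) (e7_pt (x : ℂ) (k.succ.insertNth (v k) v)) := by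
    intro x
    have h2 : dd (q + 2) F = fun z : Fin (q + 2) → ℂ =>
        ∑ i : Fin (q + 2), (-1 : ℂ) ^ (i : ℕ) *
          (fun z : Fin (q + 2) → ℂ => pd i.succ F (i.succ.insertNth (z i) z)) z := by
      funext z
      unfold dd
      refine Finset.sum_congr rfl fun i _ => ?_
      rw [e7_dd_eq]
    rw [h2, e7_g_sum (s := s) (fun i : Fin (q + 2) => (-1 : ℂ) ^ (i : ℕ))
      (fun (i : Fin (q + 2)) (z : Fin (q + 2) → ℂ) => pd i.succ F (i.succ.insertNth (z i) z))
      (fun i => e7_insert_diff (scv_pd_diff _ hO3 _ hF.hol _) i) _ (e7_pt_mem hs x hv)]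
    rw [Fin.sum_univ_succ, Fin.sum_univ_succ, ← add_assoc]
    congr 1
    · simp only [Fin.val_zero, pow_zero, one_mul, Fin.val_succ, zero_add, pow_one]
      rw [sub_eq_add_neg, neg_one_mul]
      rfl
    · refine Finset.sum_congr rfl fun k _ => ?_
      rw [e7_g_insert]
      simp only [Fin.val_succ]
      have h3 : (k.succ.succ.succ.insertNth (e7_pt (x : ℂ) v k.succ.succ) (e7_pt (x : ℂ) v) : Fin (q + 3) → ℂ)
          = e7_pt (x : ℂ) (k.succ.insertNth (v k) v) := by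
        have h4 : e7_pt (x : ℂ) v k.succ.succ = v k := rfl
        rw [h4]
        unfold e7_pt
        rw [Fin.insertNth_succ_cons, Fin.insertNth_succ_cons]
      rw [h3, pow_add, pow_add]
      ring
  simp only [hL]
  rw [intervalIntegral.integral_add, e7_T hs hF v hv, zero_add, intervalIntegral.integral_finsetSum]
  · refine Finset.sum_congr rfl fun k _ => ?_
    rw [intervalIntegral.integral_const_mul]
  · intro k _
    exact (e7_integrable hs (e7_g_diff (scv_pd_diff _ hO3 _ hF.hol _)) _ (e7_insert_mem hv k) 0 1).const_mul _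
  · refine IntervalIntegrable.sub ?_ ?_
    · exact e7_integrable hs (e7_g_diff (e7_insert_diff (scv_pd_diff _ hO3 _ hF.hol _) 0)) v hv 0 1
    · exact e7_integrable hs (e7_g_diff (e7_insert_diff (scv_pd_diff _ hO3 _ hF.hol _) 1)) v hv 0 1
  · have h5 : (fun x : ℝ => ∑ k : Fin q, (-1 : ℂ) ^ (k : ℕ) *
          e7_g (pd k.succ.succ.succ F) (e7_pt (x : ℂ) (k.succ.insertNth (v k) v)))
        = ∑ k : Fin q, fun x : ℝ => (-1 : ℂ) ^ (k : ℕ) *
          e7_g (pd k.succ.succ.succ F) (e7_pt (x : ℂ) (k.succ.insertNth (v k) v)) := by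
      funext x; rw [Finset.sum_apply]
    rw [h5]
    refine IntervalIntegrable.sum _ fun k _ => ?_
    exact (e7_integrable hs (e7_g_diff (scv_pd_diff _ hO3 _ hF.hol _)) _ (e7_insert_mem hv k) 0 1).const_mul _

theorem st_E7 : ST_E7 := by
  intro q s hs
  refine ⟨fun F hF => (e7_BO q s hs F hF).1, ⟨64 / s ^ 3, fun F hF M hM => (e7_BO q s hs F hF).2 M hM⟩,
    fun F hF v hv => e7_comm q s hs F hF v hv, fun F hF v hv => e7_wedge q s hs F hF v hv,
    fun F hF v => e7_wedge0 s hs F hF v⟩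

end

end Pool.Agent.Helper67.DO
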