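import Pool.Agent.Helper89.DO.E7a

/-!
# E7: contraction with GV
-/

namespace Pool.Agent.Helper67.DO

open scoped BigOperators Real Topology
open MeasureTheory Set Metric

noncomputable section

/-- the diagonal point `(x,x,v)` -/
def e7_pt {q : ℕ} (x : ℂ) (v : Fin q → ℂ) : Fin (q + 2) → ℂ := Fin.cons x (Fin.cons x v : Fin (q + 1) → ℂ)

/-- `D_1 D_2^2` -/
def e7_g {q : ℕ} (F : (Fin (q + 2) → ℂ) → ℂ) : (Fin (q + 2) → ℂ) → ℂ := pd 0 (pd 1 (pd 1 F))

theorem e7_upd1 {q : ℕ} (a x t : ℂ) (v : Fin q → ℂ) :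
    Function.update (Fin.cons a (Fin.cons x v : Fin (q + 1) → ℂ) : Fin (q + 2) → ℂ) 1 t
      = Fin.cons a (Fin.cons t v : Fin (q + 1) → ℂ) := by
  have : (1 : Fin (q + 2)) = Fin.succ 0 := rfl
  rw [this, ← Fin.cons_update, Fin.update_cons_zero]

theorem e7_pd1 {q : ℕ} (F : (Fin (q + 2) → ℂ) → ℂ) (a t : ℂ) (v : Fin q → ℂ) :
    pd 1 F (Fin.cons a (Fin.cons t v : Fin (q + 1) → ℂ) : Fin (q + 2) → ℂ)
      = deriv (fun t => F (Fin.cons a (Fin.cons t v : Fin (q + 1) → ℂ))) t := by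
  unfold pd
  simp only [e7_upd1]
  rfl

theorem e7_pd0 {q : ℕ} (F : (Fin (q + 2) → ℂ) → ℂ) (a t : ℂ) (v : Fin q → ℂ) :
    pd 0 F (Fin.cons a (Fin.cons t v : Fin (q + 1) → ℂ) : Fin (q + 2) → ℂ)
      = deriv (fun a => F (Fin.cons a (Fin.cons t v : Fin (q + 1) → ℂ))) a := by
  unfold pd
  simp only [Fin.update_cons_zero]
  rfl

theorem e7_gc_eq (q : ℕ) (F : (Fin (q + 2) → ℂ) → ℂ) (v : Fin q → ℂ) :
    gc q F v = ∫ x in (0 : ℝ)..1, e7_g F (e7_pt (x : ℂ) v) := by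
  unfold gc e7_g e7_pt
  refine intervalIntegral.integral_congr fun x _ => ?_
  rw [e7_pd0]
  congr 1
  funext a
  rw [e7_pd1, iteratedDeriv_succ, iteratedDeriv_one]
  congr 1
  funext t
  rw [e7_pd1]

theorem e7_pt_mem {q : ℕ} {s : ℝ} (hs : 0 < s) (x : ℝ) {v : Fin q → ℂ} (hv : v ∈ PU q (St s)) :
    e7_pt (x : ℂ) v ∈ PU (q + 2) (St s) := by
  intro i
  refine Fin.cases ?_ (fun i => ?_) i
  · simp [e7_pt, St, hs]
  · refine Fin.cases ?_ (fun i => ?_) i
    · simp [e7_pt, St, hs]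
    · simpa [e7_pt] using hv i

theorem e7_g_diff {q : ℕ} {s : ℝ} {F : (Fin (q + 2) → ℂ) → ℂ}
    (hF : DifferentiableOn ℂ F (PU (q + 2) (St s))) : DifferentiableOn ℂ (e7_g F) (PU (q + 2) (St s)) := by
  have hO := scv_PU_open (q := q + 2) (scv_St_open s)
  exact scv_pd_diff _ hO _ (scv_pd_diff _ hO _ (scv_pd_diff _ hO _ hF 1) 1) 0

/-- the linear map `v ↦ (0,0,v)` -/
def e7_L (q : ℕ) : (Fin q → ℂ) →L[ℂ] (Fin (q + 2) → ℂ) :=
  ContinuousLinearMap.pi (Fin.cons 0 (Fin.cons 0 (fun j => ContinuousLinearMap.proj j) :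
    Fin (q + 1) → ((Fin q → ℂ) →L[ℂ] ℂ)))

theorem e7_pt_eq {q : ℕ} (x : ℂ) (v : Fin q → ℂ) : e7_pt x v = e7_pt x 0 + e7_L q v := by
  funext i
  refine Fin.cases ?_ (fun i => ?_) i
  · simp [e7_pt, e7_L]
  · refine Fin.cases ?_ (fun i => ?_) i
    · simp [e7_pt, e7_L]
    · simp [e7_pt, e7_L]

theorem e7_L_single {q : ℕ} (j : Fin q) :
    e7_L q (Pi.single j 1) = Pi.single j.succ.succ 1 := by
  funext i
  refine Fin.cases ?_ (fun i => ?_) i
  · rw [Pi.single_eq_of_ne (by exact (Fin.succ_ne_zero _).symm)]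
    simp [e7_L]
  · refine Fin.cases ?_ (fun i => ?_) i
    · rw [Pi.single_eq_of_ne (by intro h; exact (Fin.succ_ne_zero _) (Fin.succ_injective _ h).symm)]
      simp [e7_L]
    · by_cases h : i = j
      · subst h; simp [e7_L]
      · have h2 : i.succ.succ ≠ j.succ.succ := fun h' => h (by simpa using h')
        rw [Pi.single_eq_of_ne h2]
        simp [e7_L, h]

theorem e7_pt_cont (q : ℕ) : Continuous (fun p : (Fin q → ℂ) × ℝ => e7_pt (p.2 : ℂ) p.1) := by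
  refine continuous_pi fun i => ?_
  refine Fin.cases ?_ (fun i => ?_) i
  · simp only [e7_pt, Fin.cons_zero]; fun_prop
  · refine Fin.cases ?_ (fun i => ?_) i
    · simp only [e7_pt, Fin.cons_zero, Fin.cons_succ]; fun_prop
    · simp only [e7_pt, Fin.cons_succ]; fun_prop

/-- integration over the diagonal: derivative under the integral -/
theorem e7_int {q : ℕ} {s : ℝ} (hs : 0 < s) {G : (Fin (q + 2) → ℂ) → ℂ}
    (hG : DifferentiableOn ℂ G (PU (q + 2) (St s))) (v : Fin q → ℂ) (hv : v ∈ PU q (St s)) :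
    DifferentiableAt ℂ (fun v => ∫ x in (0 : ℝ)..1, G (e7_pt (x : ℂ) v)) v ∧
    ∀ j, pd j (fun v => ∫ x in (0 : ℝ)..1, G (e7_pt (x : ℂ) v)) v
      = ∫ x in (0 : ℝ)..1, pd j.succ.succ G (e7_pt (x : ℂ) v) := by
  have hO := scv_PU_open (q := q + 2) (scv_St_open s)
  have hOq := scv_PU_open (q := q) (scv_St_open s)
  have hmaps : ∀ p ∈ PU q (St s) ×ˢ Icc (0 : ℝ) 1, e7_pt (p.2 : ℂ) p.1 ∈ PU (q + 2) (St s) :=
    fun p hp => e7_pt_mem hs p.2 hp.1
  have h1 := scv_fderiv_int (PU q (St s)) hOq 0 1 zero_le_one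
    (fun v x => G (e7_pt (x : ℂ) v))
    (fun v x => (fderiv ℂ G (e7_pt (x : ℂ) v)).comp (e7_L q))
    (hG.continuousOn.comp (e7_pt_cont q).continuousOn hmaps)
    (by
      have h2 : ContinuousOn (fun p : (Fin q → ℂ) × ℝ => fderiv ℂ G (e7_pt (p.2 : ℂ) p.1))
          (PU q (St s) ×ˢ Icc (0 : ℝ) 1) :=
        (scv_fderiv_cont _ G hO hG).comp (e7_pt_cont q).continuousOn hmaps
      exact h2.clm_comp continuousOn_const)
    (by
      intro v hv x _
      have h2 := ((hG _ (e7_pt_mem hs x hv)).differentiableAt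
        (hO.mem_nhds (e7_pt_mem hs x hv))).hasFDerivAt
      have h3 : HasFDerivAt (fun v : Fin q → ℂ => e7_pt (x : ℂ) v) (e7_L q) v := by
        have : (fun v : Fin q → ℂ => e7_pt (x : ℂ) v) = fun v => e7_pt (x : ℂ) 0 + e7_L q v := by
          funext v; exact e7_pt_eq _ _
        rw [this]
        exact (e7_L q).hasFDerivAt.const_add _
      exact h2.comp v h3)
  refine ⟨(h1 v hv).differentiableAt, fun j => ?_⟩
  have hd : DifferentiableOn ℂ (fun v => ∫ x in (0 : ℝ)..1, G (e7_pt (x : ℂ) v)) (PU q (St s)) :=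
    fun v hv => (h1 v hv).differentiableAt.differentiableWithinAt
  rw [scv_pd_eq _ hOq _ hd j v hv, (h1 v hv).fderiv, ContinuousLinearMap.intervalIntegral_apply]
  · refine intervalIntegral.integral_congr fun x _ => ?_
    simp only [ContinuousLinearMap.comp_apply]
    rw [e7_L_single, scv_pd_eq _ hO _ hG _ _ (e7_pt_mem hs x hv)]
  · refine ContinuousOn.intervalIntegrable ?_
    have h2 : ContinuousOn (fun x : ℝ => fderiv ℂ G (e7_pt (x : ℂ) v)) (uIcc 0 1) := by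
      refine (scv_fderiv_cont _ G hO hG).comp ?_ (fun x _ => e7_pt_mem hs x hv)
      exact ((e7_pt_cont q).comp (by fun_prop : Continuous fun x : ℝ => (v, x))).continuousOn
    exact h2.clm_comp continuousOn_const

theorem e7_integrable {q : ℕ} {s : ℝ} (hs : 0 < s) {G : (Fin (q + 2) → ℂ) → ℂ}
    (hG : DifferentiableOn ℂ G (PU (q + 2) (St s))) (v : Fin q → ℂ) (hv : v ∈ PU q (St s)) (a b : ℝ) :
    IntervalIntegrable (fun x : ℝ => G (e7_pt (x : ℂ) v)) volume a b := by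
  refine ContinuousOn.intervalIntegrable ?_
  refine hG.continuousOn.comp ?_ (fun x _ => e7_pt_mem hs x hv)
  exact ((e7_pt_cont q).comp (by fun_prop : Continuous fun x : ℝ => (v, x))).continuousOn

/-- extension of a permutation by two fixed points -/
def e7_ext {q : ℕ} (σ : Equiv.Perm (Fin q)) : Equiv.Perm (Fin (q + 2)) :=
  Equiv.Perm.decomposeFin.symm (0, Equiv.Perm.decomposeFin.symm (0, σ))

theorem e7_ext_zero {q : ℕ} (σ : Equiv.Perm (Fin q)) : e7_ext σ 0 = 0 := by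
  simp [e7_ext]

theorem e7_ext_one {q : ℕ} (σ : Equiv.Perm (Fin q)) : e7_ext σ 1 = 1 := by
  have : (1 : Fin (q + 2)) = Fin.succ 0 := rfl
  rw [this]
  unfold e7_ext
  rw [Equiv.Perm.decomposeFin_symm_apply_succ, Equiv.Perm.decomposeFin_symm_apply_zero]
  simp

theorem e7_ext_succ {q : ℕ} (σ : Equiv.Perm (Fin q)) (j : Fin q) :
    e7_ext σ j.succ.succ = (σ j).succ.succ := by
  unfold e7_ext
  rw [Equiv.Perm.decomposeFin_symm_apply_succ, Equiv.Perm.decomposeFin_symm_apply_succ]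
  simp

theorem e7_ext_sign {q : ℕ} (σ : Equiv.Perm (Fin q)) :
    Equiv.Perm.sign (e7_ext σ) = Equiv.Perm.sign σ := by
  unfold e7_ext
  rw [Equiv.Perm.decomposeFin.symm_sign, Equiv.Perm.decomposeFin.symm_sign]
  simp

theorem e7_pt_perm {q : ℕ} (σ : Equiv.Perm (Fin q)) (x : ℂ) (v : Fin q → ℂ) :
    e7_pt x (fun i => v (σ i)) = fun i => e7_pt x v (e7_ext σ i) := by
  funext i
  refine Fin.cases ?_ (fun i => ?_) i
  · rw [e7_ext_zero]; rfl
  · refine Fin.cases ?_ (fun i => ?_) i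
    · have : e7_ext σ (Fin.succ 0) = 1 := e7_ext_one σ
      rw [this]; rfl
    · rw [e7_ext_succ]; rfl

theorem e7_pt_update {q : ℕ} (x t : ℂ) (v : Fin q → ℂ) (i : Fin q) :
    e7_pt x (Function.update v i t) = Function.update (e7_pt x v) i.succ.succ t := by
  unfold e7_pt
  rw [Fin.cons_update, Fin.cons_update]

theorem e7_g_rel {q : ℕ} {U : Set ℂ} (hU : IsOpen U) {σ : Equiv.Perm (Fin q)} {c : ℂ}
    {F : (Fin (q + 2) → ℂ) → ℂ} (h : E7Rel U (e7_ext σ) c F F) : E7Rel U (e7_ext σ) c (e7_g F) (e7_g F) := by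
  have h0 : (e7_ext σ).symm 0 = 0 := by rw [Equiv.symm_apply_eq, e7_ext_zero]
  have h1 : (e7_ext σ).symm 1 = 1 := by rw [Equiv.symm_apply_eq, e7_ext_one]
  have := e7_rel_pd hU (e7_rel_pd hU (e7_rel_pd hU h 1) 1) 0
  rw [h1, h0] at this
  exact this

theorem e7_g_per {q : ℕ} {U : Set ℂ} (hU : IsOpen U) {F : (Fin (q + 2) → ℂ) → ℂ} (h : E7Per U F) :
    E7Per U (e7_g F) := e7_per_pd hU (e7_per_pd hU (e7_per_pd hU h 1) 1) 0

/-- one Cauchy step on the set `|Im z_0|, |Im z_1| ≤ ρ` -/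
theorem e7_step {q : ℕ} {s : ℝ} {G : (Fin (q + 2) → ℂ) → ℂ}
    (hG : DifferentiableOn ℂ G (PU (q + 2) (St s))) (j : Fin (q + 2)) (hj : j = 0 ∨ j = 1) (ρ r M : ℝ)
    (hr : 0 < r) (hρ : ρ + r < s)
    (hM : ∀ z ∈ PU (q + 2) (St s), |(z 0).im| ≤ ρ + r → |(z 1).im| ≤ ρ + r → ‖G z‖ ≤ M) :
    ∀ z ∈ PU (q + 2) (St s), |(z 0).im| ≤ ρ → |(z 1).im| ≤ ρ → ‖pd j G z‖ ≤ M / r := by
  intro z hz h0 h1
  have hzj : |(z j).im| ≤ ρ := by rcases hj with rfl | rfl <;> assumption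
  have ht : ∀ t : ℂ, ‖t - z j‖ ≤ r → |t.im| ≤ ρ + r := by
    intro t ht
    have h2 : |t.im - (z j).im| ≤ r := by
      have := Complex.abs_im_le_norm (t - z j)
      rw [Complex.sub_im] at this
      exact this.trans ht
    have h3 : |t.im| ≤ |t.im - (z j).im| + |(z j).im| := by
      have := abs_add_le (t.im - (z j).im) (z j).im
      simpa using this
    linarith
  have hU : ∀ t : ℂ, ‖t - z j‖ ≤ r → t ∈ St s := fun t h => lt_of_le_of_lt (ht t h) hρ
  refine e7_pd_bound (scv_St_open s) hG j z hz r M hr hU (fun t h => ?_)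
  refine hM _ (e7_upd_mem hz j (hU t h)) ?_ ?_
  · by_cases h2 : (0 : Fin (q + 2)) = j
    · rw [← h2, Function.update_self]; exact ht t h
    · rw [Function.update_of_ne h2]; linarith
  · by_cases h2 : (1 : Fin (q + 2)) = j
    · rw [← h2, Function.update_self]; exact ht t h
    · rw [Function.update_of_ne h2]; linarith

theorem e7_g_bound {q : ℕ} {s : ℝ} (hs : 0 < s) {F : (Fin (q + 2) → ℂ) → ℂ}
    (hF : DifferentiableOn ℂ F (PU (q + 2) (St s))) (M : ℝ)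
    (hM : ∀ z ∈ PU (q + 2) (St s), ‖F z‖ ≤ M) (x : ℝ) (v : Fin q → ℂ) (hv : v ∈ PU q (St s)) :
    ‖e7_g F (e7_pt (x : ℂ) v)‖ ≤ 64 / s ^ 3 * M := by
  have hO := scv_PU_open (q := q + 2) (scv_St_open s)
  have d1 := scv_pd_diff _ hO _ hF 1
  have d2 := scv_pd_diff _ hO _ d1 1
  have b1 := e7_step hF 1 (Or.inr rfl) (s / 2) (s / 4) M (by linarith) (by linarith)
    (fun z hz _ _ => hM z hz)
  have b2 := e7_step d1 1 (Or.inr rfl) (s / 4) (s / 4) (M / (s / 4)) (by linarith) (by linarith)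
    (fun z hz h0 h1 => b1 z hz (by linarith) (by linarith))
  have b3 := e7_step d2 0 (Or.inl rfl) 0 (s / 4) (M / (s / 4) / (s / 4)) (by linarith) (by linarith)
    (fun z hz h0 h1 => b2 z hz (by linarith) (by linarith))
  have h := b3 (e7_pt (x : ℂ) v) (e7_pt_mem hs x hv) (by simp [e7_pt]) (by
    have : e7_pt (x : ℂ) v 1 = x := rfl
    rw [this]; simp)
  refine h.trans (le_of_eq ?_)
  field_simp
  ring

theorem e7_BO (q : ℕ) (s : ℝ) (hs : 0 < s) (F : (Fin (q + 2) → ℂ) → ℂ) (hF : BO (q + 2) (St s) F) :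
    BO q (St s) (gc q F) ∧ ∀ M : ℝ, (∀ z ∈ PU (q + 2) (St s), ‖F z‖ ≤ M) →
    ∀ z ∈ PU q (St s), ‖gc q F z‖ ≤ 64 / s ^ 3 * M := by
  have hb : ∀ M : ℝ, (∀ z ∈ PU (q + 2) (St s), ‖F z‖ ≤ M) →
      ∀ z ∈ PU q (St s), ‖gc q F z‖ ≤ 64 / s ^ 3 * M := by
    intro M hM z hz
    rw [e7_gc_eq]
    refine (intervalIntegral.norm_integral_le_of_norm_le_const (C := 64 / s ^ 3 * M)
      fun x _ => ?_).trans (le_of_eq (by norm_num))
    exact e7_g_bound hs hF.hol M hM x z hz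
  have hgc : gc q F = fun v => ∫ x in (0 : ℝ)..1, e7_g F (e7_pt (x : ℂ) v) := by
    funext v; exact e7_gc_eq q F v
  refine ⟨⟨?_, ?_, ?_, ?_⟩, hb⟩
  · intro v hv
    rw [hgc]
    exact (e7_int hs (e7_g_diff hF.hol) v hv).1.differentiableWithinAt
  · intro v hv i
    rw [e7_gc_eq, e7_gc_eq]
    refine intervalIntegral.integral_congr fun x _ => ?_
    show e7_g F (e7_pt (x : ℂ) (Function.update v i (v i + 1))) = e7_g F (e7_pt (x : ℂ) v)
    rw [e7_pt_update]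
    exact e7_g_per (scv_St_open s) hF.per _ (e7_pt_mem hs x hv) i.succ.succ
  · intro v hv σ
    rw [e7_gc_eq, e7_gc_eq, ← intervalIntegral.integral_const_mul]
    refine intervalIntegral.integral_congr fun x _ => ?_
    show e7_g F (e7_pt (x : ℂ) (fun i => v (σ i))) = _ * e7_g F (e7_pt (x : ℂ) v)
    rw [e7_pt_perm]
    have hrel : E7Rel (St s) (e7_ext σ) ((Equiv.Perm.sign σ : ℤ) : ℂ) F F := by
      intro z hz
      have := hF.alt z hz (e7_ext σ)
      rw [e7_ext_sign] at this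
      exact this
    exact e7_g_rel (scv_St_open s) hrel _ (e7_pt_mem hs x hv)
  · obtain ⟨C, hC⟩ := hF.bdd
    exact ⟨_, hb C hC⟩

end

end Pool.Agent.Helper67.DO
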