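import Pool.Agent.Helper67.DO.StmtsE1
import Pool.Agent.Helper89.DO.SCV

/-!
# Partial derivatives: symmetries, bounds, reindexing
-/

namespace Pool.Agent.Helper67.DO

open scoped BigOperators Real Topology
open MeasureTheory Set Metric

noncomputable section

theorem e7_upd_mem {n : ℕ} {U : Set ℂ} {z : Fin n → ℂ} (hz : z ∈ PU n U) (j : Fin n) {t : ℂ} (ht : t ∈ U) :
    Function.update z j t ∈ PU n U := by
  intro i
  by_cases h : i = j
  · subst h; simpa using ht
  · rw [Function.update_of_ne h]; exact hz i

/-- `Rel` : two functions related by a permutation of the variables -/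
def E7Rel {n : ℕ} (U : Set ℂ) (σ : Equiv.Perm (Fin n)) (c : ℂ) (F G : (Fin n → ℂ) → ℂ) : Prop :=
  ∀ z ∈ PU n U, G (fun i => z (σ i)) = c * F z

theorem e7_rel_pd {n : ℕ} {U : Set ℂ} (hU : IsOpen U) {σ : Equiv.Perm (Fin n)} {c : ℂ} {F G : (Fin n → ℂ) → ℂ}
    (h : E7Rel U σ c F G) (j : Fin n) : E7Rel U σ c (pd j F) (pd (σ.symm j) G) := by
  intro z hz
  unfold pd
  have h1 : ∀ t : ℂ, Function.update (fun i => z (σ i)) (σ.symm j) t = fun i => Function.update z j t (σ i) := by
    intro t
    funext i
    by_cases hi : i = σ.symm j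
    · subst hi; simp
    · have : σ i ≠ j := fun h => hi (by rw [← h]; simp)
      rw [Function.update_of_ne hi, Function.update_of_ne this]
  have h2 : (fun t => G (Function.update (fun i => z (σ i)) (σ.symm j) t))
      =ᶠ[𝓝 (z j)] fun t => c * F (Function.update z j t) := by
    filter_upwards [hU.mem_nhds (hz j)] with t ht
    rw [h1]
    exact h _ (e7_upd_mem hz j ht)
  have h3 : (fun i => z (σ i)) (σ.symm j) = z j := by simp
  rw [h3, h2.deriv_eq]
  exact deriv_const_mul_field c

/-- periodicity in all variables -/
def E7Per {n : ℕ} (U : Set ℂ) (F : (Fin n → ℂ) → ℂ) : Prop :=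
  ∀ z ∈ PU n U, ∀ i, F (Function.update z i (z i + 1)) = F z

theorem e7_per_pd {n : ℕ} {U : Set ℂ} (hU : IsOpen U) {F : (Fin n → ℂ) → ℂ}
    (h : E7Per U F) (j : Fin n) : E7Per U (pd j F) := by
  intro z hz i
  unfold pd
  by_cases hij : i = j
  · subst hij
    have h1 : (fun t => F (Function.update (Function.update z i (z i + 1)) i t)) =
        fun t => F (Function.update z i t) := by
      funext t; simp
    rw [h1, Function.update_self]
    have h2 : deriv (fun t => F (Function.update z i t)) (z i + 1)
        = deriv (fun t => F (Function.update z i (t + 1))) (z i) :=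
      (deriv_comp_add_const (f := fun t => F (Function.update z i t)) (1 : ℂ) (z i)).symm
    rw [h2]
    apply Filter.EventuallyEq.deriv_eq
    filter_upwards [hU.mem_nhds (hz i)] with t ht
    have := h _ (e7_upd_mem hz i ht) i
    simpa using this
  · have hji : j ≠ i := fun h => hij h.symm
    rw [Function.update_of_ne hji]
    apply Filter.EventuallyEq.deriv_eq
    filter_upwards [hU.mem_nhds (hz j)] with t ht
    have h3 := h _ (e7_upd_mem hz j ht) i
    rw [Function.update_of_ne hij] at h3
    rw [Function.update_comm (Ne.symm hji)]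
    exact h3

/-- Cauchy estimate -/
theorem e7_pd_bound {n : ℕ} {U : Set ℂ} (hU : IsOpen U) {F : (Fin n → ℂ) → ℂ}
    (hF : DifferentiableOn ℂ F (PU n U)) (j : Fin n) (z : Fin n → ℂ) (hz : z ∈ PU n U) (r M : ℝ) (hr : 0 < r)
    (hb : ∀ t, ‖t - z j‖ ≤ r → t ∈ U) (hM : ∀ t, ‖t - z j‖ ≤ r → ‖F (Function.update z j t)‖ ≤ M) :
    ‖pd j F z‖ ≤ M / r := by
  unfold pd
  refine Complex.norm_deriv_le_of_forall_mem_sphere_norm_le hr ?_ ?_
  · apply DifferentiableOn.diffContOnCl
    rw [closure_ball _ hr.ne']
    intro t ht
    have ht' : t ∈ U := hb t (by simpa [dist_eq_norm] using ht)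
    have h1 := hF _ (e7_upd_mem hz j ht')
    have h2 : DifferentiableAt ℂ F (Function.update z j t) :=
      h1.differentiableAt ((scv_PU_open hU).mem_nhds (e7_upd_mem hz j ht'))
    have h3 : DifferentiableAt ℂ (fun t => Function.update z j t) t :=
      (hasDerivAt_update z j t).differentiableAt
    exact (h2.comp t h3).differentiableWithinAt
  · intro t ht
    exact hM t (by rw [mem_sphere, dist_eq_norm] at ht; exact ht.le)

/-- reindexing with a different variable: unconditional -/
theorem e7_pd_insert {n : ℕ} (G : (Fin (n + 1) → ℂ) → ℂ) (i j : Fin n) (hij : i ≠ j) (z : Fin n → ℂ) :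
    pd j (fun z => G (i.succ.insertNth (z i) z)) z
      = pd (i.succ.succAbove j) G (i.succ.insertNth (z i) z) := by
  unfold pd
  congr 1
  · funext t
    show G (i.succ.insertNth (Function.update z j t i) (Function.update z j t)) = _
    rw [Function.update_of_ne hij, Fin.insertNth_update]
  · rw [Fin.insertNth_apply_succAbove]

/-- reindexing with the doubled variable -/
theorem e7_pd_insert_self {n : ℕ} {U : Set ℂ} (hU : IsOpen U) (G : (Fin (n + 1) → ℂ) → ℂ)
    (hG : DifferentiableOn ℂ G (PU (n + 1) U)) (i : Fin n) (z : Fin n → ℂ) (hz : z ∈ PU n U) :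
    pd i (fun z => G (i.succ.insertNth (z i) z)) z
      = pd i.castSucc G (i.succ.insertNth (z i) z) + pd i.succ G (i.succ.insertNth (z i) z) := by
  have hmem : (i.succ.insertNth (z i) z : Fin (n + 1) → ℂ) ∈ PU (n + 1) U := by
    intro k
    refine Fin.succAboveCases i.succ ?_ (fun k => ?_) k
    · rw [Fin.insertNth_apply_same]; exact hz i
    · rw [Fin.insertNth_apply_succAbove]; exact hz k
  have hne : i.succ ≠ i.castSucc := by
    intro h; have := congrArg Fin.val h; simp at this
  have hsa : i.succ.succAbove i = i.castSucc := Fin.succAbove_succ_self i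
  unfold pd
  have h1 := scv_chain (PU (n + 1) U) (scv_PU_open hU) G hG
    (fun t => (i.succ.insertNth t (Function.update z i t) : Fin (n + 1) → ℂ))
    (Pi.single i.castSucc 1 + Pi.single i.succ 1) (z i) ?_ ?_
  · have h2 : (fun t => G (i.succ.insertNth (Function.update z i t i) (Function.update z i t)))
        = fun t => G (i.succ.insertNth t (Function.update z i t)) := by
      funext t; rw [Function.update_self]
    rw [h2, h1.deriv, Function.update_eq_self]
    simp only [Pi.add_apply, add_mul, Finset.sum_add_distrib, Pi.single_apply, ite_mul, one_mul, zero_mul,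
      Finset.sum_ite_eq', Finset.mem_univ, if_true]
    rfl
  · intro k
    refine Fin.succAboveCases i.succ ?_ (fun k => ?_) k
    · simp only [Fin.insertNth_apply_same, Pi.add_apply, Pi.single_eq_same]
      rw [Pi.single_eq_of_ne hne]
      rw [zero_add]
      exact hasDerivAt_id (z i)
    · simp only [Fin.insertNth_apply_succAbove, Pi.add_apply]
      rw [Pi.single_eq_of_ne (Fin.succAbove_ne i.succ k), add_zero]
      by_cases hk : k = i
      · subst hk
        rw [hsa, Pi.single_eq_same]
        have h5 : (fun t : ℂ => Function.update z k t k) = fun t => t := by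
          funext t; rw [Function.update_self]
        rw [h5]
        exact hasDerivAt_id (z k)
      · have : i.succ.succAbove k ≠ i.castSucc := by
          rw [← hsa]; intro h; exact hk (Fin.succAbove_right_injective h)
        rw [Pi.single_eq_of_ne this]
        simp only [Function.update_of_ne hk]
        exact hasDerivAt_const _ _
  · show (i.succ.insertNth (z i) (Function.update z i (z i)) : Fin (n + 1) → ℂ) ∈ PU (n + 1) U
    rw [Function.update_eq_self]; exact hmem

end

end Pool.Agent.Helper67.DO
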