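import Pool.Agent.Helper89.DO.E7

/-!
# E7: wedge with 1 and the boundary
-/

namespace Pool.Agent.Helper67.DO

open scoped BigOperators Real Topology
open MeasureTheory Set Metric

noncomputable section

theorem e7_pd_sum {n : ℕ} {U : Set ℂ} (hU : IsOpen U) {ι : Type} [Fintype ι] (c : ι → ℂ)
    (K : ι → (Fin n → ℂ) → ℂ) (hK : ∀ i, DifferentiableOn ℂ (K i) (PU n U)) (j : Fin n)
    (z : Fin n → ℂ) (hz : z ∈ PU n U) :
    pd j (fun z => ∑ i, c i * K i z) z = ∑ i, c i * pd j (K i) z := by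
  have hO := scv_PU_open (q := n) hU
  unfold pd
  have h1 : ∀ i ∈ (Finset.univ : Finset ι), HasDerivAt (fun t => c i * K i (Function.update z j t))
      (c i * deriv (fun t => K i (Function.update z j t)) (z j)) (z j) := by
    intro i _
    have h2 : DifferentiableAt ℂ (K i) (Function.update z j (z j)) := by
      rw [Function.update_eq_self]
      exact (hK i z hz).differentiableAt (hO.mem_nhds hz)
    have h3 : DifferentiableAt ℂ (fun t => Function.update z j t) (z j) :=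
      (hasDerivAt_update z j (z j)).differentiableAt
    exact ((h2.comp (z j) h3).hasDerivAt).const_mul (c i)
  exact (HasDerivAt.fun_sum h1).deriv

theorem e7_g_sum {q : ℕ} {s : ℝ} {ι : Type} [Fintype ι] (c : ι → ℂ)
    (K : ι → (Fin (q + 2) → ℂ) → ℂ) (hK : ∀ i, DifferentiableOn ℂ (K i) (PU (q + 2) (St s)))
    (z : Fin (q + 2) → ℂ) (hz : z ∈ PU (q + 2) (St s)) :
    e7_g (fun z => ∑ i, c i * K i z) z = ∑ i, c i * e7_g (K i) z := by
  have hU := scv_St_open s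
  have hO := scv_PU_open (q := q + 2) hU
  have h1 : ∀ z ∈ PU (q + 2) (St s), pd 1 (fun z => ∑ i, c i * K i z) z = ∑ i, c i * pd 1 (K i) z :=
    fun z hz => e7_pd_sum hU c K hK 1 z hz
  have d1 : ∀ i, DifferentiableOn ℂ (pd 1 (K i)) (PU (q + 2) (St s)) := fun i => scv_pd_diff _ hO _ (hK i) 1
  have h2 : ∀ z ∈ PU (q + 2) (St s), pd 1 (pd 1 (fun z => ∑ i, c i * K i z)) z
      = ∑ i, c i * pd 1 (pd 1 (K i)) z := by
    intro z hz
    rw [scv_pd_congr _ hO _ _ h1 1 z hz]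
    exact e7_pd_sum hU c _ d1 1 z hz
  have d2 : ∀ i, DifferentiableOn ℂ (pd 1 (pd 1 (K i))) (PU (q + 2) (St s)) :=
    fun i => scv_pd_diff _ hO _ (d1 i) 1
  unfold e7_g
  rw [scv_pd_congr _ hO _ _ h2 0 z hz]
  exact e7_pd_sum hU c _ d2 0 z hz

theorem e7_pd_zero {n : ℕ} (j : Fin n) : pd j (fun _ : Fin n → ℂ => (0 : ℂ)) = fun _ => 0 := by
  funext z; unfold pd; simp

/-- derivative in the removed variable -/
theorem e7_pd_remove_self {n : ℕ} (F : (Fin n → ℂ) → ℂ) (i : Fin (n + 1)) :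
    pd i (fun z : Fin (n + 1) → ℂ => F (i.removeNth z)) = fun _ => 0 := by
  funext z
  unfold pd
  have : (fun t : ℂ => F (i.removeNth (Function.update z i t))) = fun _ => F (i.removeNth z) := by
    funext t; rw [Fin.removeNth_update]
  rw [this]; simp

theorem e7_pd_remove {n : ℕ} (F : (Fin n → ℂ) → ℂ) (i : Fin (n + 1)) (j : Fin n) :
    pd (i.succAbove j) (fun z : Fin (n + 1) → ℂ => F (i.removeNth z)) = fun z => pd j F (i.removeNth z) := by
  funext z
  unfold pd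
  have : (fun t : ℂ => F (i.removeNth (Function.update z (i.succAbove j) t)))
      = fun t => F (Function.update (i.removeNth z) j t) := by
    funext t; rw [Fin.removeNth_update_succAbove]
  rw [this]; rfl

theorem e7_g_rem0 {q : ℕ} (F : (Fin (q + 1) → ℂ) → ℂ) :
    e7_g (fun z : Fin (q + 2) → ℂ => F (Fin.removeNth 0 z)) = fun _ => 0 := by
  unfold e7_g
  have h1 : (1 : Fin (q + 2)) = Fin.succAbove 0 0 := rfl
  rw [h1, e7_pd_remove, e7_pd_remove, e7_pd_remove_self]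

theorem e7_g_rem1 {q : ℕ} (F : (Fin (q + 1) → ℂ) → ℂ) :
    e7_g (fun z : Fin (q + 2) → ℂ => F (Fin.removeNth 1 z)) = fun _ => 0 := by
  unfold e7_g
  rw [e7_pd_remove_self, e7_pd_zero, e7_pd_zero]

theorem e7_g_rem {q : ℕ} (F : (Fin (q + 2) → ℂ) → ℂ) (k : Fin (q + 1)) :
    e7_g (fun z : Fin (q + 3) → ℂ => F (Fin.removeNth k.succ.succ z))
      = fun z => e7_g F (Fin.removeNth k.succ.succ z) := by
  unfold e7_g
  have h1 : (1 : Fin (q + 3)) = Fin.succAbove k.succ.succ 1 := by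
    rw [Fin.succ_succAbove_one]; simp
  have h0 : (0 : Fin (q + 3)) = Fin.succAbove k.succ.succ 0 := by
    rw [Fin.succ_succAbove_zero]
  rw [h1, e7_pd_remove, e7_pd_remove]
  conv_lhs => rw [h0]
  rw [e7_pd_remove]

theorem e7_pt_remove {q : ℕ} (x : ℂ) (v : Fin (q + 1) → ℂ) (k : Fin (q + 1)) :
    (Fin.removeNth k.succ.succ (e7_pt x v) : Fin (q + 2) → ℂ) = e7_pt x (Fin.removeNth k v) := by
  funext i
  unfold Fin.removeNth
  refine Fin.cases ?_ (fun i => ?_) i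
  · rw [Fin.succ_succAbove_zero]; rfl
  · refine Fin.cases ?_ (fun i => ?_) i
    · rw [Fin.succ_succAbove_succ, Fin.succ_succAbove_zero]; rfl
    · rw [Fin.succ_succAbove_succ, Fin.succ_succAbove_succ]; rfl

theorem e7_remove_mem {n : ℕ} {U : Set ℂ} {z : Fin (n + 1) → ℂ} (hz : z ∈ PU (n + 1) U) (i : Fin (n + 1)) :
    (i.removeNth z : Fin n → ℂ) ∈ PU n U := fun _ => hz _

theorem e7_remove_diff {n : ℕ} {U : Set ℂ} {F : (Fin n → ℂ) → ℂ}
    (hF : DifferentiableOn ℂ F (PU n U)) (i : Fin (n + 1)) :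
    DifferentiableOn ℂ (fun z : Fin (n + 1) → ℂ => F (i.removeNth z)) (PU (n + 1) U) := by
  refine hF.comp ?_ (fun z hz => e7_remove_mem hz i)
  refine Differentiable.differentiableOn ?_
  exact differentiable_pi.2 fun j => differentiable_apply _

theorem e7_wedge (q : ℕ) (s : ℝ) (hs : 0 < s) (F : (Fin (q + 2) → ℂ) → ℂ) (hF : BO (q + 2) (St s) F)
    (v : Fin (q + 1) → ℂ) (hv : v ∈ PU (q + 1) (St s)) :
    gc (q + 1) (wd (fun _ => 1) (q + 2) F) v = wd (fun _ => 1) q (gc q F) v := by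
  rw [e7_gc_eq]
  have h1 : ∀ x : ℝ, e7_g (wd (fun _ => 1) (q + 2) F) (e7_pt (x : ℂ) v)
      = ∑ k : Fin (q + 1), (-1 : ℂ) ^ (k : ℕ) * e7_g F (e7_pt (x : ℂ) (Fin.removeNth k v)) := by
    intro x
    have h2 : wd (fun _ => 1) (q + 2) F = fun z : Fin (q + 3) → ℂ =>
        ∑ i : Fin (q + 3), ((-1 : ℂ) ^ (i : ℕ) * 1) * (fun z : Fin (q + 3) → ℂ => F (i.removeNth z)) z := rfl
    rw [h2, e7_g_sum (s := s) (fun i : Fin (q + 3) => (-1 : ℂ) ^ (i : ℕ) * 1)
      (fun (i : Fin (q + 3)) (z : Fin (q + 3) → ℂ) => F (i.removeNth z))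
      (fun i => e7_remove_diff hF.hol i) _ (e7_pt_mem hs x hv)]
    rw [Fin.sum_univ_succ, Fin.sum_univ_succ]
    have h3 : e7_g (fun z : Fin (q + 3) → ℂ => F (Fin.removeNth (Fin.succ 0) z)) = fun _ => 0 :=
      e7_g_rem1 F
    rw [e7_g_rem0, h3]
    simp only [mul_zero, zero_add, mul_one]
    refine Finset.sum_congr rfl fun k _ => ?_
    rw [e7_g_rem]
    simp only [Fin.val_succ]
    rw [e7_pt_remove, pow_add, pow_add]
    ring
  simp only [h1]
  rw [intervalIntegral.integral_finsetSum]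
  · unfold wd
    refine Finset.sum_congr rfl fun k _ => ?_
    rw [intervalIntegral.integral_const_mul, mul_one, e7_gc_eq]
  · intro k _
    exact (e7_integrable hs (e7_g_diff hF.hol) _ (e7_remove_mem hv k) 0 1).const_mul _

theorem e7_wedge0 (s : ℝ) (hs : 0 < s) (F : (Fin 1 → ℂ) → ℂ) (hF : BO 1 (St s) F)
    (v : Fin 0 → ℂ) : gc 0 (wd (fun _ => 1) 1 F) v = 0 := by
  rw [e7_gc_eq]
  have hv : v ∈ PU 0 (St s) := fun i => i.elim0
  have h1 : ∀ x : ℝ, e7_g (wd (fun _ => 1) 1 F) (e7_pt (x : ℂ) v) = 0 := by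
    intro x
    have h2 : wd (fun _ => 1) 1 F = fun z : Fin 2 → ℂ =>
        ∑ i : Fin 2, ((-1 : ℂ) ^ (i : ℕ) * 1) * (fun z : Fin 2 → ℂ => F (i.removeNth z)) z := rfl
    rw [h2, e7_g_sum (s := s) (fun i : Fin 2 => (-1 : ℂ) ^ (i : ℕ) * 1)
      (fun (i : Fin 2) (z : Fin 2 → ℂ) => F (i.removeNth z))
      (fun i => e7_remove_diff hF.hol i) _ (e7_pt_mem hs x hv)]
    rw [Fin.sum_univ_succ, Fin.sum_univ_succ]
    have h3 : e7_g (fun z : Fin 2 → ℂ => F (Fin.removeNth (Fin.succ 0) z)) = fun _ => 0 :=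
      e7_g_rem1 F
    rw [e7_g_rem0, h3]
    simp
  simp only [h1]
  simp

end

end Pool.Agent.Helper67.DO
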